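import Pool.Agent.Lib.MP_aa3aaf_al.Fock

/-!
Fields given by their modes, `m`-th products of fields, vertex superalgebras of fields, generated
subalgebras, simplicity; the `bc`-`βγ` system over a differential ring.
-/

set_option autoImplicit false
open scoped BigOperators
noncomputable section
namespace Pool.Agent.CDR
open Pool.Agent.AA3

/-- A field `a(z) = ∑ aₘ z^{-m-1}` on a space `E`, given by its modes `aₘ = a m : E → E`. -/
def Fd (E : Type*) : Type _ := ℤ → E → E

section
variable {E : Type*} [AddCommGroup E] [Module ℂ E]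

instance : AddCommGroup (Fd E) := (inferInstance : AddCommGroup (ℤ → E → E))
instance : Module ℂ (Fd E) := (inferInstance : Module ℂ (ℤ → E → E))

/-- The binomial coefficient `m choose j` for an integer `m`, as a complex number. -/
def bino (m : ℤ) (j : ℕ) : ℂ := ((Ring.choose m j : ℤ) : ℂ)

/-- The `m`-th product of two fields of fixed parities; `q = -1` if both are odd, else `q = 1`:
`(a₍ₘ₎b)_k = ∑_{j ≥ 0} (-1)^j (m choose j) (a_{m-j} b_{k+j} - (-1)^m q b_{m+k-j} a_j)`. -/
def mprod (q : ℂ) (m : ℤ) (a b : Fd E) : Fd E := fun k v =>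
  ∑ᶠ j : ℕ, ((-1) ^ j * bino m j) •
    (a (m - j) (b (k + j) v) - ((-1) ^ m * q) • b (m + k - j) (a j v))

variable (σ : E → E)

/-- conjugation of a field by the parity operator `σ` -/
def conj (a : Fd E) : Fd E := fun m v => σ (a m (σ v))
/-- even part of a field -/
def evn (a : Fd E) : Fd E := (1 / 2 : ℂ) • (a + conj σ a)
/-- odd part of a field -/
def odd (a : Fd E) : Fd E := (1 / 2 : ℂ) • (a - conj σ a)

/-- the `m`-th product `a₍ₘ₎ b` of two fields on a superspace with parity operator `σ` -/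
def prodF (m : ℤ) (a b : Fd E) : Fd E :=
  mprod 1 m (evn σ a) b + mprod 1 m (odd σ a) (evn σ b) + mprod (-1) m (odd σ a) (odd σ b)

/-- the supercommutator of an odd operator `S` with a field -/
def scommF (S : E → E) (a : Fd E) : Fd E := fun m v => S (a m v) - σ (a m (σ (S v)))

/-- The identity field: `1₋₁ = id`, all other modes are zero. -/
def idF (E : Type*) [AddCommGroup E] : Fd E := fun m v => if m = -1 then v else 0

end

/-- A space with `m`-th products, a vacuum and a supersymmetry operator. -/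
structure VAlg (𝒱 : Type*) where
  /-- the products `a₍ₘ₎ b` -/
  prod : ℤ → 𝒱 → 𝒱 → 𝒱
  /-- the vacuum -/
  one : 𝒱
  /-- the supersymmetry operator -/
  S : 𝒱 → 𝒱

namespace VAlg
variable {𝒱 : Type*} [AddCommGroup 𝒱] [Module ℂ 𝒱] (X : VAlg 𝒱)

/-- The supersymmetric vertex subalgebra generated by `s`: the smallest subspace containing the
vacuum and `s` and stable under all products and under the supersymmetry operator. -/
def gen (s : 𝒱) : Submodule ℂ 𝒱 :=
  sInf {W | X.one ∈ W ∧ s ∈ W ∧ (∀ m a b, a ∈ W → b ∈ W → X.prod m a b ∈ W) ∧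
    ∀ a, a ∈ W → X.S a ∈ W}

/-- The vertex subalgebra generated by a set `G`: the smallest subspace containing the vacuum and
`G` and stable under all products. -/
def genSet (G : Set 𝒱) : Submodule ℂ 𝒱 :=
  sInf {W | X.one ∈ W ∧ (∀ s, s ∈ G → s ∈ W) ∧ ∀ m a b, a ∈ W → b ∈ W → X.prod m a b ∈ W}

/-- A vertex subalgebra `W` is simple: it is not zero, and every nonzero subspace `I` of `W` with
`a₍ₘ₎ b ∈ I` for all `a ∈ W`, `b ∈ I` is all of `W`. -/
def IsSimple (W : Submodule ℂ 𝒱) : Prop :=
  W ≠ ⊥ ∧ ∀ I : Submodule ℂ 𝒱, I ≤ W → I ≠ ⊥ →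
    (∀ m a b, a ∈ W → b ∈ I → X.prod m a b ∈ I) → I = W

end VAlg

section Local
variable (n : ℕ) (A : Type*) [CommRing A] [Algebra ℂ A]

/-- The space of the `bc`-`βγ` system over `A`: the free `A`-module on the monomials in the
negative modes of `∂γ^i`, `β_i`, `b_i`, `c^i`. -/
def Fk : Type _ := EE n A
instance : AddCommGroup (Fk n A) := (inferInstance : AddCommGroup (EE n A))
instance : Module ℂ (Fk n A) := (inferInstance : Module ℂ (EE n A))

/-- the field `∂γ^i` -/
def xF (i : Fin n) : Fd (Fk n A) := fun m v => xMo n A i m v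
/-- the field `c^i` -/
def cF (i : Fin n) : Fd (Fk n A) := fun m v => fMo n A false i m v
/-- the field `b_i` -/
def bF (i : Fin n) : Fd (Fk n A) := fun m v => fMo n A true i m v

variable {n A} (D : DS n A)

/-- the field `β_i` -/
def βF (i : Fin n) : Fd (Fk n A) := fun m v => βMo D i m v
/-- the field `f(γ)` -/
def fnF (f : A) : Fd (Fk n A) := fun m v => fnMo D f m v

/-- the parity operator: `b_i`, `c^i` are odd, `γ^i`, `β_i` are even -/
def sg (v : Fk n A) : Fk n A := sgE n A v

/-- normally ordered product -/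
def nop (a b : Fd (Fk n A)) : Fd (Fk n A) := prodF sg (-1) a b

/-- The supersymmetry operator: zero mode of `∑ c^i β_i + b_i ∂γ^i`. -/
def susy (v : Fk n A) : Fk n A :=
  ∑ i, (nop (cF n A i) (βF D i) 0 v + nop (bF n A i) (xF n A i) 0 v)

/-- The fields on the Fock space of the `bc`-`βγ` system over `(A, ∂)` with their `m`-th
products, identity and supersymmetry. -/
def fieldAlg : VAlg (Fd (Fk n A)) where
  prod m a b := prodF sg m a b
  one := idF (Fk n A)
  S a := scommF sg (susy D) a

/-- the generating fields `f(γ)`, `∂γ^i`, `β_i`, `b_i`, `c^i` -/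
def gens : Set (Fd (Fk n A)) :=
  {P | (∃ f, P = fnF D f) ∨ ∃ i, P = xF n A i ∨ P = βF D i ∨ P = bF n A i ∨ P = cF n A i}

/-- The vertex algebra of the `bc`-`βγ` system over `(A, ∂)`: all fields generated by `f(γ)`,
`∂γ^i`, `β_i`, `b_i`, `c^i`. For `A = C^∞(U)` these are the sections of the chiral de Rham complex
over the coordinate domain `U`. -/
def omegaCh : Submodule ℂ (Fd (Fk n A)) := (fieldAlg D).genSet (gens D)

/-- The section attached to a 3-form with components `p i j k`, for a metric with inverse `gi` and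
Christoffel symbols `Γ m l i = Γ^m_{li}`, using the odd fields `e i`:
`∑ p_{ijk} e^i e^j e^k + 3 ∑ g^{ij} Γ^m_{li} p_{mjk} ∂γ^l e^k`. -/
def formSection (gi : Matrix (Fin n) (Fin n) A) (Γ p : Fin n → Fin n → Fin n → A)
    (e : Fin n → Fd (Fk n A)) : Fd (Fk n A) :=
  ∑ i, ∑ j, ∑ k, nop (fnF D (p i j k)) (nop (e i) (nop (e j) (e k)))
    + (3 : ℂ) • ∑ l, ∑ k, nop (fnF D (∑ i, ∑ j, ∑ m, gi i j * Γ m l i * p m j k))
        (nop (xF n A l) (e k))

/-- Christoffel symbols `Γ^m_{li}` of the metric `g` with inverse `gi`. -/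
def christoffel (g gi : Matrix (Fin n) (Fin n) A) (m l i : Fin n) : A :=
  ∑ r, gi m r * ((1 / 2 : ℂ) • (D.d l (g r i) + D.d i (g r l) - D.d r (g l i)))

/-- `e^i_+ = (∑ g^{ij} b_j + c^i) / √2` -/
def ePlus (gi : Matrix (Fin n) (Fin n) A) (i : Fin n) : Fd (Fk n A) :=
  (1 / (Real.sqrt 2 : ℂ)) • (∑ j, nop (fnF D (gi i j)) (bF n A j) + cF n A i)

/-- `e^i_- = (∑ g^{ij} b_j - c^i) / √(-2)`, with `√(-2) = √2 i` -/
def eMinus (gi : Matrix (Fin n) (Fin n) A) (i : Fin n) : Fd (Fk n A) :=
  (1 / ((Real.sqrt 2 : ℂ) * Complex.I)) • (∑ j, nop (fnF D (gi i j)) (bF n A j) - cF n A i)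

end Local

end Pool.Agent.CDR
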