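import Pool.Agent.Lib.MP_aa3aaf_al_L.Sections

/-!
Global sections of the smooth chiral de Rham complex: families of sections over the coordinate
domains which agree on overlaps after the standard change of coordinates.
-/

set_option autoImplicit false
open scoped BigOperators ContDiff Manifold
noncomputable section
namespace Pool.Agent.CDR
open Pool.Agent.AA3

section Change
variable {n : ℕ} {A A' : Type*} [CommRing A] [Algebra ℂ A] [CommRing A'] [Algebra ℂ A']

/-- The coordinate change of the chiral de Rham complex. `(A, ∂)` are functions with the partial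
derivatives of the coordinates `x^i`, `(A', ∂')` those of the coordinates `x'^j`,
`h` transports functions (it is `f ↦ f(x'(x))`), and `X j` is the function `x'^j` in `A`.
With `J^j_i = ∂x'^j/∂x^i` and `F = J⁻¹`, the map `τ` takes
`f(γ')` to `h(f)(γ)`, `∂γ'^j` to `∑ J^j_i ∂γ^i`, `c'^j` to `∑ J^j_i c^i`,
`b'_j` to `∑ F^i_j b_i`, the vacuum to the vacuum, and it commutes with the supersymmetry
(so `β'_j`, the superpartner of `b'_j`, goes to the superpartner of `∑ F^i_j b_i`). -/
structure IsCoordChange (D : DS n A) (D' : DS n A') (h : A' → A) (X : Fin n → A)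
    (τ : Fk n A' →ₗ[ℂ] Fk n A) : Prop where
  vac : τ (vacE n A') = vacE n A
  fn : ∀ (f : A') (m : ℤ) v, τ (fnF D' f m v) = fnF D (h f) m (τ v)
  x : ∀ (j : Fin n) (m : ℤ) v, τ (xF n A' j m v) =
    ∑ i, nop (fnF D (D.d i (X j))) (xF n A i) m (τ v)
  c : ∀ (j : Fin n) (m : ℤ) v, τ (cF n A' j m v) =
    ∑ i, nop (fnF D (D.d i (X j))) (cF n A i) m (τ v)
  b : ∀ (j : Fin n) (m : ℤ) v, τ (bF n A' j m v) =
    ∑ i, nop (fnF D ((Matrix.of fun j i => D.d i (X j))⁻¹ i j)) (bF n A i) m (τ v)
  susy : ∀ v, τ (susy D' v) = susy D (τ v)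

end Change

section
variable {M : Type} [TopologicalSpace M] [ChartedSpace R7 M]

theorem isOpen_ovl (e e' : Ch M) : IsOpen (e.dom.set ∩ e.inv ⁻¹' e'.src) :=
  e.1.symm.isOpen_inter_preimage e'.1.open_source

/-- the overlap of the charts `e` and `e'`, in the coordinates of `e` -/
def ovl (e e' : Ch M) : Dom := ⟨e.dom.set ∩ e.inv ⁻¹' e'.src, isOpen_ovl e e'⟩

theorem map_mem (e e' : Ch M) (y : (ovl e e').set) : e'.map (e.inv y) ∈ e'.dom.set :=
  e'.1.map_source y.2.2

/-- a point of the overlap as a point of the coordinate domain of `e` -/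
def pt (e e' : Ch M) (y : (ovl e e').set) : e.dom.set := ⟨y, y.2.1⟩
/-- the coordinates of this point in the chart `e'` -/
def pt' (e e' : Ch M) (y : (ovl e e').set) : e'.dom.set := ⟨e'.map (e.inv y), map_mem e e' y⟩

/-- A section over the coordinate domain of `e` and one over that of `e'` (both given by their
states) agree on the overlap: the restriction of the first is the image of the second under the
change of coordinates. -/
def Agree (e e' : Ch M) (s : Fk 7 (Sm e.dom)) (s' : Fk 7 (Sm e'.dom)) : Prop :=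
  ∃ (r : Sm e.dom → Sm (ovl e e')) (h : Sm e'.dom → Sm (ovl e e'))
    (X : Fin 7 → Sm (ovl e e')) (τ : Fk 7 (Sm e'.dom) →ₗ[ℂ] Fk 7 (Sm (ovl e e'))),
    (∀ f y, (r f).fn y = f.fn (pt e e' y)) ∧
    (∀ f y, (h f).fn y = f.fn (pt' e e' y)) ∧
    (∀ j y, (X j).fn y = ((coo (e'.map (e.inv y)) j : ℝ) : ℂ)) ∧
    IsCoordChange (DSm (ovl e e')) (DSm e'.dom) h X τ ∧
    ∀ w : Mon 7, r (Finsupp.toFun s w) = Finsupp.toFun (τ s') w

variable (M) in
/-- Global sections of the chiral de Rham complex: families of sections over the coordinate domains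
which agree on all overlaps. The state of a field `P` is `P₍₋₁₎ 1`. -/
def GlobalSec : Set (Fam M) :=
  {P | (∀ e, P e ∈ omegaCh (DSm e.dom)) ∧
    ∀ e e' : Ch M, Agree e e' (P e (-1) (vacE 7 _)) (P e' (-1) (vacE 7 _))}

end

end Pool.Agent.CDR
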