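import Pool.Agent.Lib.MP_aa3aaf_al.Change
import Pool.Agent.Lib.MP_aa3aaf_al.FrameAlg

/-!
Transport of the metric and of the 3-form under homomorphisms and changes of coordinates.
-/

set_option autoImplicit false
set_option linter.unusedSectionVars false
open scoped BigOperators
noncomputable section
namespace Pool.Agent.AA3.TR

section Jacobian
variable {n : ℕ} {A B : Type*} [CommRing A] [Algebra ℂ A] [CommRing B] [Algebra ℂ B]

/-- base change of Jacobian data -/
def jmap {D : DS n A} {DB : DS n B} (jac : Jac D) (r : A →ₐ[ℂ] B)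
    (hr : ∀ i f, r (D.d i f) = DB.d i (r f)) : Jac DB where
  J := jac.J.map r
  F := jac.F.map r
  J_F := by rw [← Matrix.map_mul, jac.J_F, Matrix.map_one _ (map_zero r) (map_one r)]
  F_J := by rw [← Matrix.map_mul, jac.F_J, Matrix.map_one _ (map_zero r) (map_one r)]
  closed k j i := by
    rw [Matrix.map_apply, Matrix.map_apply, ← hr, ← hr, jac.closed]

variable {D : DS n A} (jac : Jac D)

/-- contraction with `J` and then with `F` -/
theorem contract (u : Fin n → A) (i : Fin n) :
    ∑ p, (∑ a, u a * jac.J a p) * jac.F p i = u i := by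
  have h : (Matrix.vecMul (Matrix.vecMul u jac.J) jac.F) i = u i := by
    rw [Matrix.vecMul_vecMul, jac.J_F, Matrix.vecMul_one]
  exact h

theorem frame_g (fr : Frame n A) (P : Fin n → Fin n → A)
    (hP : ∀ i k, fr.g i k = ∑ a, ∑ b, P a b * (jac.J a i * jac.J b k)) (i k : Fin n) :
    P i k = (jac.frame fr).g i k := by
  have h1 : (jac.frame fr).g i k = ∑ p, ∑ q, fr.g p q * (jac.F p i * jac.F q k) := by
    have e1 : (jac.frame fr).g = jac.F.transpose * fr.g * jac.F := by
      show (fr.e * jac.F).transpose * (fr.e * jac.F) = _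
      rw [Matrix.transpose_mul, Frame.g, Matrix.mul_assoc, Matrix.mul_assoc, Matrix.mul_assoc]
    rw [e1, Matrix.mul_apply]
    simp only [Matrix.mul_apply, Matrix.transpose_apply, Finset.sum_mul]
    rw [Finset.sum_comm]
    refine Finset.sum_congr rfl fun p _ => Finset.sum_congr rfl fun q _ => ?_
    ring
  have h2 : ∀ p, ∑ q, fr.g p q * (jac.F p i * jac.F q k) = (∑ a, P a k * jac.J a p) * jac.F p i := by
    intro p
    have h3 : ∀ q, fr.g p q * (jac.F p i * jac.F q k) =
        (∑ b, (∑ a, P a b * jac.J a p) * jac.J b q) * jac.F q k * jac.F p i := by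
      intro q
      rw [hP, Finset.sum_comm]
      have : ∑ y, ∑ x, P x y * (jac.J x p * jac.J y q) =
          ∑ b, (∑ a, P a b * jac.J a p) * jac.J b q := by
        refine Finset.sum_congr rfl fun b _ => ?_
        rw [Finset.sum_mul]
        exact Finset.sum_congr rfl fun a _ => by ring
      rw [this]
      ring
    rw [Finset.sum_congr rfl fun q _ => h3 q, ← Finset.sum_mul]
    rw [contract jac (fun b => ∑ a, P a b * jac.J a p) k]
  rw [h1, Finset.sum_congr rfl fun p _ => h2 p, contract jac (fun a => P a k) i]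

theorem frame_phc (fr : Frame n A) (φ : Fin n → Fin n → Fin n → ℂ)
    (P : Fin n → Fin n → Fin n → A)
    (hP : ∀ i j k, CD.phc fr φ i j k =
      ∑ a, ∑ b, ∑ c, P a b c * (jac.J a i * (jac.J b j * jac.J c k))) (i j k : Fin n) :
    P i j k = CD.phc (jac.frame fr) φ i j k := by
  have h1 : CD.phc (jac.frame fr) φ i j k =
      ∑ p, ∑ q, ∑ s, CD.phc fr φ p q s * (jac.F p i * jac.F q j * jac.F s k) := by
    have := CD.C7.contr3 (fr := fr) φ (fun p => jac.F p i) (fun q => jac.F q j)
      (fun s => jac.F s k)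
    rw [this]
    rfl
  have h2 : ∀ p q, ∑ s, CD.phc fr φ p q s * (jac.F p i * jac.F q j * jac.F s k) =
      (∑ b, (∑ a, P a b k * jac.J a p) * jac.J b q) * jac.F q j * jac.F p i := by
    intro p q
    have h3 : ∀ s, CD.phc fr φ p q s * (jac.F p i * jac.F q j * jac.F s k) =
        (∑ c, (∑ b, (∑ a, P a b c * jac.J a p) * jac.J b q) * jac.J c s) * jac.F s k *
          (jac.F q j * jac.F p i) := by
      intro s
      rw [hP]
      have : ∑ a, ∑ b, ∑ c, P a b c * (jac.J a p * (jac.J b q * jac.J c s)) =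
          ∑ c, (∑ b, (∑ a, P a b c * jac.J a p) * jac.J b q) * jac.J c s := by
        simp only [Finset.sum_mul]
        calc ∑ a, ∑ b, ∑ c, P a b c * (jac.J a p * (jac.J b q * jac.J c s))
            = ∑ a, ∑ c, ∑ b, P a b c * (jac.J a p * (jac.J b q * jac.J c s)) :=
              Finset.sum_congr rfl fun a _ => Finset.sum_comm
          _ = ∑ c, ∑ a, ∑ b, P a b c * (jac.J a p * (jac.J b q * jac.J c s)) :=
              Finset.sum_comm
          _ = ∑ c, ∑ b, ∑ a, P a b c * (jac.J a p * (jac.J b q * jac.J c s)) :=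
              Finset.sum_congr rfl fun c _ => Finset.sum_comm
          _ = _ := Finset.sum_congr rfl fun c _ => Finset.sum_congr rfl fun b _ =>
              Finset.sum_congr rfl fun a _ => by ring
      rw [this]
      ring
    rw [Finset.sum_congr rfl fun s _ => h3 s, ← Finset.sum_mul]
    rw [contract jac (fun c => ∑ b, (∑ a, P a b c * jac.J a p) * jac.J b q) k]
    ring
  have h4 : ∀ p, ∑ q, ∑ s, CD.phc fr φ p q s * (jac.F p i * jac.F q j * jac.F s k) =
      (∑ a, P a j k * jac.J a p) * jac.F p i := by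
    intro p
    rw [Finset.sum_congr rfl fun q _ => h2 p q, ← Finset.sum_mul]
    rw [contract jac (fun b => ∑ a, P a b k * jac.J a p) j]
  rw [h1, Finset.sum_congr rfl fun p _ => h4 p, contract jac (fun a => P a j k) i]

end Jacobian

section Transport
variable {A B : Type*} [CommRing A] [Algebra ℂ A] [CommRing B] [Algebra ℂ B]

theorem fr_g_gi (fr : Frame 7 A) : fr.g * fr.gi = 1 := by
  rw [Frame.g, Frame.gi, Matrix.mul_assoc, ← Matrix.mul_assoc fr.e, fr.e_f, Matrix.one_mul,
    ← Matrix.transpose_mul, fr.f_e, Matrix.transpose_one]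

/-- Transport of metric, Christoffel symbols and the parallel 3-form -/
theorem transport (D : DS 7 A) (DB : DS 7 B) (k : A →ₐ[ℂ] B)
    (hk : ∀ i f, k (D.d i f) = DB.d i (k f)) (g gi : Matrix (Fin 7) (Fin 7) A)
    (hg : gi * g = 1) (Γ p : Fin 7 → Fin 7 → Fin 7 → A)
    (hΓ : ∀ m l i, Γ m l i =
      ∑ r, gi m r * ((1 / 2 : ℂ) • (D.d l (g r i) + D.d i (g r l) - D.d r (g l i))))
    (hpar : ∀ l i j k, D.d l (p i j k) =
      ∑ m, (Γ m l i * p m j k + Γ m l j * p i m k + Γ m l k * p i j m))
    (fr : Frame 7 B) (h1 : ∀ i j, k (g i j) = fr.g i j)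
    (h2 : ∀ i j l, k (p i j l) = CD.phc fr phiC i j l) :
    gi.map k = fr.gi ∧ (∀ m l i, k (Γ m l i) = CD.Gam DB fr m l i) ∧ CD.Contr DB fr phiC := by
  have e1 : gi.map k = fr.gi := by
    have h3 : gi.map k * fr.g = 1 := by
      have : fr.g = g.map k := Matrix.ext fun i j => (h1 i j).symm
      rw [this]
      have h4 : (gi * g).map k = gi.map k * g.map k := Matrix.map_mul
      rw [← h4, hg, Matrix.map_one _ (map_zero k) (map_one k)]
    calc gi.map k = gi.map k * (fr.g * fr.gi) := by rw [fr_g_gi, Matrix.mul_one]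
      _ = fr.gi := by rw [← Matrix.mul_assoc, h3, Matrix.one_mul]
  have e2 : ∀ m l i, k (Γ m l i) = CD.Gam DB fr m l i := by
    intro m l i
    rw [hΓ, map_sum, CD.Gam]
    refine Finset.sum_congr rfl fun r _ => ?_
    rw [map_mul, map_smul, map_sub, map_add, hk, hk, hk, h1, h1, h1, ← e1]
    rfl
  refine ⟨e1, e2, contr_of_stab DB fr (stab_of_parallel DB fr phiC fun l i j m => ?_)⟩
  rw [← h2, ← hk, hpar, map_sum]
  refine Finset.sum_congr rfl fun r _ => ?_
  simp only [map_add, map_mul, e2, h2]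

end Transport

end Pool.Agent.AA3.TR
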