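import Pool.Agent.Lib.MP_aa3aaf_al_L.Iso
import Pool.Agent.Lib.MP_aa3aaf_al_L.Trans

/-!
Overlaps of charts on the light statement layer.
-/

set_option autoImplicit false
set_option linter.unusedSectionVars false
open scoped BigOperators ContDiff Manifold
noncomputable section
namespace Pool.Agent.CDR
open Pool.Agent.AA3

theorem gen_overlap {A A' C B B' E : Type} [CommRing A] [Algebra ℂ A] [CommRing A']
    [Algebra ℂ A'] [CommRing C] [Algebra ℂ C] [CommRing B] [Algebra ℂ B] [CommRing B']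
    [Algebra ℂ B'] [CommRing E] [Algebra ℂ E]
    (DA : DS 7 A) (DA' : DS 7 A') (DC : DS 7 C) (DB : DS 7 B) (DB' : DS 7 B') (DE : DS 7 E)
    (s : A ≃ₐ[ℂ] B) (s' : A' ≃ₐ[ℂ] B') (u : C ≃ₐ[ℂ] E)
    (sd : ∀ i a, s (DA.d i a) = DB.d i (s a)) (sd' : ∀ i a, s' (DA'.d i a) = DB'.d i (s' a))
    (ud : ∀ i a, u (DC.d i a) = DE.d i (u a))
    (r0 : A →ₐ[ℂ] C) (h0 : A' →ₐ[ℂ] C) (X0 : Fin 7 → C) (jac0 : Jac DC)
    (hJ : ∀ j i, jac0.J j i = DC.d i (X0 j))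
    (hr : ∀ i f, r0 (DA.d i f) = DC.d i (r0 f))
    (hh : ∀ j f, h0 (DA'.d j f) = ∑ i, jac0.F i j * DC.d i (h0 f)) :
    ∃ (r : B →ₐ[ℂ] E) (h : B' →ₐ[ℂ] E) (X : Fin 7 → E) (jac : Jac DE),
      (∀ a, r (s a) = u (r0 a)) ∧ (∀ a, h (s' a) = u (h0 a)) ∧ (∀ j, X j = u (X0 j)) ∧
      (∀ j i, jac.J j i = u (jac0.J j i)) ∧ (∀ j i, jac.J j i = DE.d i (X j)) ∧
      (∀ i f, r (DB.d i f) = DE.d i (r f)) ∧
      ∀ j f, h (DB'.d j f) = ∑ i, jac.F i j * DE.d i (h f) := by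
  have e1 : ∀ a, ((u : C →ₐ[ℂ] E).comp (r0.comp (s.symm : B →ₐ[ℂ] A))) (s a) = u (r0 a) := by
    intro a
    show u (r0 (s.symm (s a))) = _
    rw [AlgEquiv.symm_apply_apply]
  have e2 : ∀ a, ((u : C →ₐ[ℂ] E).comp (h0.comp (s'.symm : B' →ₐ[ℂ] A'))) (s' a)
      = u (h0 a) := by
    intro a
    show u (h0 (s'.symm (s' a))) = _
    rw [AlgEquiv.symm_apply_apply]
  refine ⟨(u : C →ₐ[ℂ] E).comp (r0.comp (s.symm : B →ₐ[ℂ] A)),
    (u : C →ₐ[ℂ] E).comp (h0.comp (s'.symm : B' →ₐ[ℂ] A')), fun j => u (X0 j),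
    TR.jmap jac0 (u : C →ₐ[ℂ] E) ud, e1, e2, fun j => rfl, fun j i => rfl, ?_, ?_, ?_⟩
  · intro j i
    show u (jac0.J j i) = _
    rw [hJ, ud]
  · intro i f
    obtain ⟨a, rfl⟩ := s.surjective f
    rw [← sd, e1, e1, hr, ud]
  · intro j f
    obtain ⟨a, rfl⟩ := s'.surjective f
    rw [← sd', e2, e2, hh, map_sum]
    refine Finset.sum_congr rfl fun i _ => ?_
    rw [map_mul, ud]
    rfl

section
variable {M : Type} [TopologicalSpace M] [i1 : ChartedSpace R7 M]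
attribute [local instance] csOld imOld

/-- the two models of the ring of a chart -/
def sC (e : Ch M) : CR (oCh e) ≃ₐ[ℂ] Sm e.dom := sm e.dom
/-- the two models of the ring of an overlap -/
def sO (e e' : Ch M) : smooth (AA3.ovl (oCh e) (oCh e')) ≃ₐ[ℂ] Sm (ovl e e') := sm (ovl e e')

theorem sC_d (e : Ch M) (i : Fin 7) (f : CR (oCh e)) :
    sC e ((DSmooth (tgt (oCh e).1)).d i f) = (DSm e.dom).d i (sC e f) := sm_d e.dom i f
theorem sC_fn (e : Ch M) (f : CR (oCh e)) (y : e.dom.set) : (sC e f).fn y = f.1 y :=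
  sm_fn e.dom f y
theorem sO_d (e e' : Ch M) (i : Fin 7) (f : smooth (AA3.ovl (oCh e) (oCh e'))) :
    sO e e' ((DSmooth (AA3.ovl (oCh e) (oCh e'))).d i f) = (DSm (ovl e e')).d i (sO e e' f) :=
  sm_d (ovl e e') i f
theorem sO_fn (e e' : Ch M) (f : smooth (AA3.ovl (oCh e) (oCh e'))) (y : (ovl e e').set) :
    (sO e e' f).fn y = f.1 y := sm_fn (ovl e e') f y
theorem sC_g (S : G2Structure M) (e : Ch M) (i j : Fin 7) :
    sC e ((oldS S).gR (oCh e) i j) = S.gR e i j :=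
  Sm.ext_fn fun y => (sC_fn e _ y).trans rfl
theorem sC_p (S : G2Structure M) (e : Ch M) (i j k : Fin 7) :
    sC e ((oldS S).pR (oCh e) i j k) = S.pR e i j k :=
  Sm.ext_fn fun y => (sC_fn e _ y).trans rfl

/-- overlaps -/
theorem overlap [i2 : IsManifold 𝓘(ℝ, R7) ∞ M] (e e' : Ch M) :
    ∃ (r : Sm e.dom →ₐ[ℂ] Sm (ovl e e')) (h : Sm e'.dom →ₐ[ℂ] Sm (ovl e e'))
      (X : Fin 7 → Sm (ovl e e')) (jac : Jac (DSm (ovl e e'))),
      (∀ f y, (r f).fn y = f.fn (pt e e' y)) ∧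
      (∀ f y, (h f).fn y = f.fn (pt' e e' y)) ∧
      (∀ j y, (X j).fn y = ((coo (e'.map (e.inv y)) j : ℝ) : ℂ)) ∧
      (∀ j i, jac.J j i = (DSm (ovl e e')).d i (X j)) ∧
      (∀ i f, r ((DSm e.dom).d i f) = (DSm (ovl e e')).d i (r f)) ∧
      (∀ j f, h ((DSm e'.dom).d j f) = ∑ i, jac.F i j * (DSm (ovl e e')).d i (h f)) ∧
      (∀ (S : G2Structure M) i k, r (S.gR e i k)
        = ∑ a, ∑ b, h (S.gR e' a b) * (jac.J a i * jac.J b k)) ∧
      ∀ (S : G2Structure M) i k l, r (S.pR e i k l)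
        = ∑ a, ∑ b, ∑ c, h (S.pR e' a b c) * (jac.J a i * (jac.J b k * jac.J c l)) := by
  obtain ⟨r0, h0, X0, jac0, o1, o2, o3, o4, o5, o6, o7, o8⟩ := exists_overlap (oCh e) (oCh e')
  obtain ⟨r, h, X, jac, n1, n2, n3, n4, n5, n6, n7⟩ :=
    gen_overlap _ _ _ (DSm e.dom) (DSm e'.dom) (DSm (ovl e e')) (sC e) (sC e') (sO e e')
      (sC_d e) (sC_d e') (sO_d e e') r0 h0 X0 jac0 o4 o5 o6
  refine ⟨r, h, X, jac, ?_, ?_, ?_, n5, n6, n7, ?_, ?_⟩
  · intro f y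
    obtain ⟨a, rfl⟩ := (sC e).surjective f
    rw [n1]
    exact (sO_fn e e' _ y).trans ((o1 a y).trans (sC_fn e a _).symm)
  · intro f y
    obtain ⟨a, rfl⟩ := (sC e').surjective f
    rw [n2]
    exact (sO_fn e e' _ y).trans ((o2 a y).trans (sC_fn e' a _).symm)
  · intro j y
    rw [n3]
    exact (sO_fn e e' _ y).trans (o3 j y)
  · intro S i k
    rw [← sC_g, n1, o7 (oldS S), map_sum]
    refine Finset.sum_congr rfl fun a _ => ?_
    rw [map_sum]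
    refine Finset.sum_congr rfl fun b _ => ?_
    rw [map_mul, map_mul, ← sC_g, n2, n4, n4]
  · intro S i k l
    rw [← sC_p, n1, o8 (oldS S), map_sum]
    refine Finset.sum_congr rfl fun a _ => ?_
    rw [map_sum]
    refine Finset.sum_congr rfl fun b _ => ?_
    rw [map_sum]
    refine Finset.sum_congr rfl fun c _ => ?_
    rw [map_mul, map_mul, map_mul, ← sC_p, n2, n4, n4, n4]

end

end Pool.Agent.CDR
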