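import Pool.Agent.Lib.MP_aa3aaf_al_L.Simple
import Pool.Agent.Lib.MP_aa3aaf_al_L.Trans
import Pool.Agent.Lib.MP_aa3aaf_al_L.Ovl

/-!
`V₊` and `V₋` consist of global sections.
-/

set_option autoImplicit false
set_option linter.unusedSectionVars false
open scoped BigOperators ContDiff Manifold
set_option maxHeartbeats 400000
set_option synthInstance.maxHeartbeats 100000
noncomputable section
namespace Pool.Agent.CDR
open Pool.Agent.AA3

attribute [local instance] csOld imOld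

section
variable {M : Type} [TopologicalSpace M] [i1 : ChartedSpace R7 M]

/-- data on the overlap of two charts -/
structure OV (e e' : Ch M) where
  r : Sm e.dom →ₐ[ℂ] Sm (ovl e e')
  h : Sm e'.dom →ₐ[ℂ] Sm (ovl e e')
  X : Fin 7 → Sm (ovl e e')
  jac : Jac (DSm (ovl e e'))
  r_fn : ∀ f y, (r f).fn y = f.fn (pt e e' y)
  h_fn : ∀ f y, (h f).fn y = f.fn (pt' e e' y)
  X_fn : ∀ j y, (X j).fn y = ((coo (e'.map (e.inv y)) j : ℝ) : ℂ)
  J_X : ∀ j i, jac.J j i = (DSm (ovl e e')).d i (X j)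
  r_d : ∀ i f, r ((DSm e.dom).d i f) = (DSm (ovl e e')).d i (r f)
  h_d : ∀ j f, h ((DSm e'.dom).d j f) = ∑ i, jac.F i j * (DSm (ovl e e')).d i (h f)
  g_law : ∀ (S : G2Structure M) i k, r (S.gR e i k)
    = ∑ a, ∑ b, h (S.gR e' a b) * (jac.J a i * jac.J b k)
  p_law : ∀ (S : G2Structure M) i k l, r (S.pR e i k l)
    = ∑ a, ∑ b, ∑ c, h (S.pR e' a b c) * (jac.J a i * (jac.J b k * jac.J c l))
  τ : EE 7 (Sm e'.dom) →ₗ[ℂ] EE 7 (Sm (ovl e e'))
  τ_ch : AA3.IsCoordChange (DSm (ovl e e')) (DSm e'.dom) h X τ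
  τ_Y : ∀ a m v, τ ((vsaE (DSm e'.dom)).Y a m v) = (vsaE (DSm (ovl e e'))).Y (τ a) m (τ v)

theorem nonempty_OV [i2 : IsManifold 𝓘(ℝ, R7) ∞ M] (e e' : Ch M) : Nonempty (OV e e') := by
  obtain ⟨r, h, X, jac, h1, h2, h3, h4, h5, h6, h7, h8⟩ := overlap e e'
  obtain ⟨τ, t1, t2⟩ := exists_change (DSm (ovl e e')) (DSm e'.dom) h X jac h4 h6
  exact ⟨⟨r, h, X, jac, h1, h2, h3, h4, h5, h6, h7, h8, τ, t1, t2⟩⟩

theorem OV.τ_DD {e e' : Ch M} (o : OV e e') (v : EE 7 (Sm e'.dom)) :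
    o.τ ((cdE (DSm e'.dom)).DD v) = (cdE (DSm (ovl e e'))).DD (o.τ v) := by
  have h := o.τ_ch.susy v
  rw [susyOp_eq, susyOp_eq] at h
  exact h

/-- the state of a multiple of `Φ±` in a chart -/
def st (S : G2Structure M) (s q : ℂ) (e : Ch M) : EE 7 (Sm e.dom) :=
  formSt (DSm e.dom) s q (S.gR e)⁻¹ (S.ΓR e) (S.pR e)

theorem gi_gR [i2 : IsManifold 𝓘(ℝ, R7) ∞ M] (S : G2Structure M) (e : Ch M) :
    (S.gR e)⁻¹ * S.gR e = 1 := by
  rw [← ev_gi1]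
  exact gi1_left S e

theorem twL_st {B : Type*} [CommRing B] [Algebra ℂ B] (S : G2Structure M) (s q : ℂ) (e : Ch M)
    (DB : DS 7 B) (k : Sm e.dom →ₐ[ℂ] B) (hk : ∀ i f, k ((DSm e.dom).d i f) = DB.d i (k f)) :
    Chg.twL k (st S s q e) = formSt DB s q ((S.gR e)⁻¹.map k) (fun a b c => k (S.ΓR e a b c))
      (fun a b c => k (S.pR e a b c)) :=
  tw_formSt (DSm e.dom) DB k hk s q _ _ _

theorem twL_coeff {n : ℕ} {A A' : Type*} [CommRing A] [Algebra ℂ A] [CommRing A'] [Algebra ℂ A']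
    (k : A →ₐ[ℂ] A') (v : EE n A) (w : Mon n) : (Chg.twL k v) w = k (v w) :=
  Z.tw_one_apply k.toRingHom v w

/-- local comparison of the states of `Φ±` in two charts -/
theorem local_eq [i2 : IsManifold 𝓘(ℝ, R7) ∞ M] (S : G2Structure M) (hS : S.TorsionFree)
    {e e' : Ch M} (o : OV e e') (y : (ovl e e').set) :
    ∃ (V : Dom) (hV : V.set ⊆ (ovl e e').set) (ρ : Sm (ovl e e') →ₐ[ℂ] Sm V), y.1 ∈ V.set ∧
      (∀ f (z : V.set), (ρ f).fn z = f.fn ⟨z.1, hV z.2⟩) ∧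
      Chg.twL ρ (Chg.twL o.r (st S 1 6 e)) = Chg.twL ρ (o.τ (st S 1 6 e')) ∧
      Chg.twL ρ (Chg.twL o.r (st S (-1) (-6) e)) = Chg.twL ρ (o.τ (st S (-1) (-6) e')) := by
  obtain ⟨V0, hV0, fr0, hy, hg, hp⟩ := local_frame S e (pt e e' y)
  let V : Dom := ⟨V0.set ∩ (ovl e e').set, V0.isOpen.inter (ovl e e').isOpen⟩
  have hV : V.set ⊆ (ovl e e').set := Set.inter_subset_right
  have hVV : V.set ⊆ V0.set := Set.inter_subset_left
  obtain ⟨ρ0, hρ0, hρ0d⟩ := restr hVV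
  obtain ⟨ρ, hρ, hρd⟩ := restr hV
  -- the frame
  have q1 : ∀ i j, ρ (o.r (S.gR e i j)) = (fr0.map ρ0.toRingHom).g i j := by
    intro i j
    apply Sm.ext_fn
    intro z
    rw [hρ, o.r_fn, fmap_g, hρ0, hg]
    rfl
  have q2 : ∀ i j l, ρ (o.r (S.pR e i j l)) = CD.phc (fr0.map ρ0.toRingHom) phiC i j l := by
    intro i j l
    apply Sm.ext_fn
    intro z
    rw [hρ, o.r_fn, fmap_phc, hρ0, hp]
    rfl
  obtain ⟨a1, a2, a3⟩ := TR.transport (DSm e.dom) (DSm V) (ρ.comp o.r)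
    (fun i f => by
      show ρ (o.r _) = _
      rw [o.r_d, hρd]
      rfl) (S.gR e) (S.gR e)⁻¹ (gi_gR S e) (S.ΓR e) (S.pR e) (ΓR_eq S e) (hS e)
    (fr0.map ρ0.toRingHom) q1 q2
  -- the other chart
  have q3 : ∀ i j, ρ (o.h (S.gR e' i j)) =
      ((TR.jmap o.jac ρ hρd).frame (fr0.map ρ0.toRingHom)).g i j := by
    refine TR.frame_g (TR.jmap o.jac ρ hρd) (fr0.map ρ0.toRingHom)
      (fun i j => ρ (o.h (S.gR e' i j))) fun i k => ?_
    rw [← q1, o.g_law]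
    simp only [map_sum, map_mul]
    rfl
  have q4 : ∀ i j l, ρ (o.h (S.pR e' i j l)) =
      CD.phc ((TR.jmap o.jac ρ hρd).frame (fr0.map ρ0.toRingHom)) phiC i j l := by
    refine TR.frame_phc (TR.jmap o.jac ρ hρd) (fr0.map ρ0.toRingHom) phiC
      (fun i j l => ρ (o.h (S.pR e' i j l))) fun i k l => ?_
    rw [← q2, o.p_law]
    simp only [map_sum, map_mul]
    rfl
  have hk2 : ∀ j f, (ρ.comp o.h) ((DSm e'.dom).d j f) =
      ∑ i, (TR.jmap o.jac ρ hρd).F i j * (DSm V).d i ((ρ.comp o.h) f) := by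
    intro j f
    show ρ (o.h _) = ∑ i, ρ (o.jac.F i j) * (DSm V).d i (ρ (o.h f))
    rw [o.h_d, map_sum]
    refine Finset.sum_congr rfl fun i _ => ?_
    rw [map_mul, hρd]
  obtain ⟨b1, b2, b3⟩ := TR.transport (DSm e'.dom) (TR.jmap o.jac ρ hρd).ds (ρ.comp o.h)
    (fun j f => by rw [hk2, Jac.ds_d]) (S.gR e') (S.gR e')⁻¹ (gi_gR S e') (S.ΓR e') (S.pR e')
    (ΓR_eq S e') (hS e') ((TR.jmap o.jac ρ hρd).frame (fr0.map ρ0.toRingHom)) q3 q4
  have hJB : ∀ j i, (TR.jmap o.jac ρ hρd).J j i = (DSm V).d i (ρ (o.X j)) := by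
    intro j i
    show ρ (o.jac.J j i) = _
    rw [o.J_X, hρd]
  obtain ⟨τB, t1, t2⟩ := exists_change (DSm V) (DSm e'.dom) (ρ.comp o.h) (fun j => ρ (o.X j))
    (TR.jmap o.jac ρ hρd) hJB hk2
  have hn : ∀ v, Chg.twL ρ (o.τ v) = τB v :=
    change_nat (DSm (ovl e e')) (DSm e'.dom) (DSm V) o.h o.X o.jac o.J_X o.h_d ρ hρd o.τ o.τ_ch
      τB t1
  obtain ⟨c1, c2⟩ := change_formSt (DSm V) (DSm e'.dom) (ρ.comp o.h) (fun j => ρ (o.X j))
    (TR.jmap o.jac ρ hρd) hJB hk2 τB t1 (fr0.map ρ0.toRingHom) phiC phiC_anti a3 b3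
    (S.gR e')⁻¹ (S.ΓR e') (S.pR e') b1 b2 q4
  have key : ∀ s q : ℂ, Chg.twL ρ (Chg.twL o.r (st S s q e)) =
      formSt (DSm V) s q (fr0.map ρ0.toRingHom).gi (CD.Gam (DSm V) (fr0.map ρ0.toRingHom))
        (CD.phc (fr0.map ρ0.toRingHom) phiC) := by
    intro s q
    rw [twL_st S s q e (DSm (ovl e e')) o.r o.r_d]
    have h1 := tw_formSt (DSm (ovl e e')) (DSm V) ρ hρd s q ((S.gR e)⁻¹.map o.r)
      (fun a b c => o.r (S.ΓR e a b c)) (fun a b c => o.r (S.pR e a b c))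
    have h2 : ((S.gR e)⁻¹.map o.r).map ρ = (fr0.map ρ0.toRingHom).gi := by
      rw [← a1]
      rfl
    have h3 : (fun a b c => ρ (o.r (S.ΓR e a b c))) =
        CD.Gam (DSm V) (fr0.map ρ0.toRingHom) := by
      funext a b c
      exact a2 a b c
    have h4 : (fun a b c => ρ (o.r (S.pR e a b c))) =
        CD.phc (fr0.map ρ0.toRingHom) phiC := by
      funext a b c
      exact q2 a b c
    rw [h2, h3, h4] at h1
    exact h1
  refine ⟨V, hV, ρ, ⟨hy, y.2⟩, hρ, ?_, ?_⟩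
  · rw [key, hn]
    exact c1.symm
  · rw [key, hn]
    exact c2.symm

theorem agree_st [i2 : IsManifold 𝓘(ℝ, R7) ∞ M] (S : G2Structure M) (hS : S.TorsionFree)
    {e e' : Ch M} (o : OV e e') :
    Chg.twL o.r (st S 1 6 e) = o.τ (st S 1 6 e') ∧
      Chg.twL o.r (st S (-1) (-6) e) = o.τ (st S (-1) (-6) e') := by
  have aux : ∀ u v : EE 7 (Sm (ovl e e')), (∀ y : (ovl e e').set, ∃ (V : Dom)
      (hV : V.set ⊆ (ovl e e').set) (ρ : Sm (ovl e e') →ₐ[ℂ] Sm V), y.1 ∈ V.set ∧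
      (∀ f (z : V.set), (ρ f).fn z = f.fn ⟨z.1, hV z.2⟩) ∧ Chg.twL ρ u = Chg.twL ρ v) → u = v := by
    intro u v h
    ext1 w
    apply Sm.ext_fn
    intro y
    obtain ⟨V, hV, ρ, hy, hρ, he⟩ := h y
    have h1 : ρ (u w) = ρ (v w) := by rw [← twL_coeff, ← twL_coeff, he]
    have h2 := congrArg (fun f : Sm V => f.fn ⟨y.1, hy⟩) h1
    simp only [hρ] at h2
    exact h2
  constructor
  · refine aux _ _ fun y => ?_
    obtain ⟨V, hV, ρ, hy, hρ, h1, -⟩ := local_eq S hS o y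
    exact ⟨V, hV, ρ, hy, hρ, h1⟩
  · refine aux _ _ fun y => ?_
    obtain ⟨V, hV, ρ, hy, hρ, -, h1⟩ := local_eq S hS o y
    exact ⟨V, hV, ρ, hy, hρ, h1⟩

/-- families of states which agree on overlaps -/
def goodSub (o : ∀ e e' : Ch M, OV e e') : Submodule ℂ (EE 7 (Z.R1 M)) where
  carrier := {a | ∀ e e', Chg.twL (o e e').r (evS e a) = (o e e').τ (evS e' a)}
  zero_mem' e e' := by
    have h1 : ∀ e : Ch M, evS e 0 = 0 := fun e => map_zero (tw (ev e).toRingHom 1 1)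
    rw [h1, h1]
    exact (map_zero (Chg.twL (o e e').r)).trans (map_zero (o e e').τ).symm
  add_mem' {a b} ha hb e e' := by
    rw [evS_add, evS_add]
    exact (map_add (Chg.twL (o e e').r) (evS e a) (evS e b)).trans
      ((congrArg₂ (· + ·) (ha e e') (hb e e')).trans
        (map_add (o e e').τ (evS e' a) (evS e' b)).symm)
  smul_mem' c a ha e e' := by
    rw [evS_smul, evS_smul]
    exact (map_smul (Chg.twL (o e e').r) c (evS e a)).trans
      ((congrArg (c • ·) (ha e e')).trans (map_smul (o e e').τ c (evS e' a)).symm)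

theorem good_vac (o : ∀ e e' : Ch M, OV e e') : vacE 7 (Z.R1 M) ∈ goodSub o := by
  intro e e'
  rw [evS_vac, evS_vac]
  exact (Chg.twL_gens (DSm e.dom) (DSm (ovl e e')) (o e e').r).2.2.2.2.2.trans
    (o e e').τ_ch.vac.symm

theorem good_Y (o : ∀ e e' : Ch M, OV e e') (a b : EE 7 (Z.R1 M)) (m : ℤ) (ha : a ∈ goodSub o)
    (hb : b ∈ goodSub o) : (vsaE (Z.D1 M)).Y a m b ∈ goodSub o := by
  intro e e'
  rw [evS_Y, evS_Y]
  refine (Chg.twL_Y (DSm e.dom) (DSm (ovl e e')) (o e e').r (o e e').r_d (evS e a) m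
    (evS e b)).trans (Eq.trans ?_ ((o e e').τ_Y (evS e' a) m (evS e' b)).symm)
  exact congrArg₂ (fun u v => (vsaE (DSm (ovl e e'))).Y u m v) (ha e e') (hb e e')

theorem good_DD (o : ∀ e e' : Ch M, OV e e') (a : EE 7 (Z.R1 M)) (ha : a ∈ goodSub o) :
    (cdE (Z.D1 M)).DD a ∈ goodSub o := by
  intro e e'
  rw [evS_DD, evS_DD]
  refine (Chg.twL_DD (DSm e.dom) (DSm (ovl e e')) (o e e').r (o e e').r_d (evS e a)).trans
    (Eq.trans ?_ ((o e e').τ_DD (evS e' a)).symm)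
  exact congrArg (fun u => (cdE (DSm (ovl e e'))).DD u) (ha e e')

theorem good_glob (o : ∀ e e' : Ch M, OV e e') (a : EE 7 (Z.R1 M)) (ha : a ∈ goodSub o) :
    FF M a ∈ GlobalSec M := by
  refine ⟨fun e => mem_omegaCh (DSm e.dom) (evS e a), fun e e' => ?_⟩
  have h1 : ∀ e : Ch M, FF M a e (-1) (vacE 7 _) = evS e a :=
    fun e => Yp_create (DSm e.dom) (evS e a)
  rw [h1, h1]
  refine ⟨(o e e').r, (o e e').h, (o e e').X, (o e e').τ, (o e e').r_fn, (o e e').h_fn,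
    (o e e').X_fn, isCoordChange_of (DSm (ovl e e')) (DSm e'.dom) _ _ _ (o e e').τ_ch,
    fun w => ?_⟩
  have h2 : (Chg.twL (o e e').r (evS e a)) w = ((o e e').τ (evS e' a)) w :=
    congrArg (fun u : EE 7 (Sm (ovl e e')) => u w) (ha e e')
  exact (twL_coeff (o e e').r (evS e a) w).symm.trans h2

theorem gen_le (o : ∀ e e' : Ch M, OV e e') (P : Fam M) (c : ℂ) (a : EE 7 (Z.R1 M))
    (hP : FF M (c • a) = P) (ha : a ∈ goodSub o) :
    ((famAlg M).gen P : Set (Fam M)) ⊆ GlobalSec M := by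
  have h : (famAlg M).gen P ≤ (goodSub o).map (FF M) := by
    refine sInf_le ⟨?_, ?_, ?_, ?_⟩
    · exact ⟨_, by rw [vsaE_vac]; exact good_vac o, FF_vac⟩
    · exact ⟨c • a, (goodSub o).smul_mem c ha, hP⟩
    · rintro m _ _ ⟨u, hu, rfl⟩ ⟨v, hv, rfl⟩
      exact ⟨_, good_Y o u v m hu hv, (FF_prod m u v).symm⟩
    · rintro _ ⟨u, hu, rfl⟩
      exact ⟨_, good_DD o u hu, (FF_S u).symm⟩
  intro x hx
  obtain ⟨u, hu, rfl⟩ := h hx
  exact good_glob o u hu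

theorem glob_plus [i2 : IsManifold 𝓘(ℝ, R7) ∞ M] (S : G2Structure M) (hS : S.TorsionFree) :
    (VPlus S : Set (Fam M)) ⊆ GlobalSec M := by
  refine gen_le (fun e e' => (nonempty_OV e e').some) _ _ (Z.stP (oS S)) (FF_plus S) ?_
  intro e e'
  rw [Z.stP, evS_form S 1 6 e, evS_form S 1 6 e']
  exact (agree_st S hS _).1

theorem glob_minus [i2 : IsManifold 𝓘(ℝ, R7) ∞ M] (S : G2Structure M) (hS : S.TorsionFree) :
    (VMinus S : Set (Fam M)) ⊆ GlobalSec M := by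
  refine gen_le (fun e e' => (nonempty_OV e e').some) _ _ (Z.stM (oS S)) (FF_minus S) ?_
  intro e e'
  rw [Z.stM, evS_form S (-1) (-6) e, evS_form S (-1) (-6) e']
  exact (agree_st S hS _).2

/-- the theorem -/
theorem main [Nonempty M] [i2 : IsManifold 𝓘(ℝ, R7) ∞ M] (S : G2Structure M)
    (hS : S.TorsionFree) :
    ((VPlus S : Set (Fam M)) ⊆ GlobalSec M ∧ (VMinus S : Set (Fam M)) ⊆ GlobalSec M) ∧
    (famAlg M).IsSimple (VPlus S) ∧ (famAlg M).IsSimple (VMinus S) :=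
  ⟨⟨glob_plus S hS, glob_minus S hS⟩, simple_plus S hS, simple_minus S hS⟩

end
end Pool.Agent.CDR
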