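import Pool.Agent.Lib.MP_aa3aaf_al_L.Global
import Pool.Agent.Lib.MP_aa3aaf_al.Final
import Pool.Agent.Lib.MP_aa3aaf_al.Overlap

/-!
The two models of rings of smooth functions and of `G₂`-structures.
-/

set_option autoImplicit false
set_option linter.unusedSectionVars false
open scoped BigOperators ContDiff Manifold
noncomputable section
namespace Pool.Agent.CDR
open Pool.Agent.AA3

/-- the two models of the ring of smooth functions -/
def smE (U : Dom) : smooth U.op ≃ₐ[ℂ] Sm U where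
  toFun f := Sm.mk f.1 f.2
  invFun f := ⟨f.fn, f.2⟩
  left_inv _ := rfl
  right_inv _ := rfl
  map_mul' _ _ := rfl
  map_add' _ _ := rfl
  commutes' _ := rfl

/-- the two models of the ring of smooth functions -/
theorem exists_sm (U : Dom) : ∃ s : smooth U.op ≃ₐ[ℂ] Sm U,
    (∀ f (y : U.set), (s f).fn y = f.1 y) ∧
    ∀ i f, s ((DSmooth U.op).d i f) = (DSm U).d i (s f) :=
  ⟨smE U, fun _ _ => rfl, fun _ _ => rfl⟩

/-- the two models of the ring of smooth functions -/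
def sm (U : Dom) : smooth U.op ≃ₐ[ℂ] Sm U := (exists_sm U).choose
theorem sm_fn (U : Dom) (f : smooth U.op) (y : U.set) : (sm U f).fn y = f.1 y :=
  (exists_sm U).choose_spec.1 f y
theorem sm_d (U : Dom) (i : Fin 7) (f : smooth U.op) :
    sm U ((DSmooth U.op).d i f) = (DSm U).d i (sm U f) := (exists_sm U).choose_spec.2 i f
theorem Sm.ext_fn {U : Dom} {f g : Sm U} (h : ∀ y, f.fn y = g.fn y) : f = g :=
  Subtype.ext (funext h)
theorem pd_DSm {U : Dom} (i : Fin 7) (f : Sm U) : (DSm U).d i f = pd i f := rfl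

theorem sm_symm_fn (U : Dom) (f : Sm U) (y : U.set) : ((sm U).symm f).1 y = f.fn y := by
  rw [← sm_fn, AlgEquiv.apply_symm_apply]

theorem sm_symm_d (U : Dom) (i : Fin 7) (f : Sm U) :
    (sm U).symm ((DSm U).d i f) = (DSmooth U.op).d i ((sm U).symm f) := by
  apply (sm U).injective
  rw [sm_d, AlgEquiv.apply_symm_apply, AlgEquiv.apply_symm_apply]

/-- restriction of smooth functions -/
theorem restr {V W : Dom} (hVW : V.set ⊆ W.set) : ∃ r : Sm W →ₐ[ℂ] Sm V,
    (∀ f (y : V.set), (r f).fn y = f.fn ⟨y.1, hVW y.2⟩) ∧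
    ∀ i f, r ((DSm W).d i f) = (DSm V).d i (r f) := by
  obtain ⟨r, h1, h2⟩ := exists_res (V := V.op) (W := W.op) hVW
  refine ⟨((sm V : smooth V.op →ₐ[ℂ] Sm V).comp r).comp
    ((sm W).symm : Sm W →ₐ[ℂ] smooth W.op), fun f y => ?_, fun i f => ?_⟩
  · exact (sm_fn V _ y).trans ((h1 _ y).trans (sm_symm_fn W f _))
  · exact (congrArg (sm V) ((congrArg r (sm_symm_d W i f)).trans (h2 i _))).trans (sm_d V i _)

variable {M : Type} [TopologicalSpace M] [i1 : ChartedSpace R7 M]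

variable (M) in
/-- the charted space structure over `EuclideanSpace ℝ (Fin 7)` -/
abbrev csOld : ChartedSpace (Eu 7) M := i1

theorem imOld [i2 : IsManifold 𝓘(ℝ, R7) ∞ M] :
    @IsManifold ℝ _ (Eu 7) _ _ (Eu 7) _ 𝓘(ℝ, Eu 7) ∞ M _ (csOld M) := i2

/-- charts -/
def oCh (e : Ch M) : @AA3.Ch M _ (csOld M) := ⟨e.1, e.2⟩
/-- charts -/
def nCh (e : @AA3.Ch M _ (csOld M)) : Ch M := ⟨e.1, e.2⟩

theorem oCh_dom (e : Ch M) : tgt (oCh e).1 = e.dom.op := rfl

/-- the structure in the sense of `AA3` -/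
def oldS (S : G2Structure M) : @AA3.G2Structure M _ (csOld M) :=
  letI := csOld M
  { g := S.g
    φ := S.φ
    adapted := S.adapted
    smooth_g := fun e he i j => S.smooth_g ⟨e, he⟩ i j
    smooth_φ := fun e he i j k => S.smooth_φ ⟨e, he⟩ i j k }

theorem map_inv {A B : Type} [CommRing A] [Algebra ℂ A] [CommRing B] [Algebra ℂ B]
    (s : A ≃ₐ[ℂ] B) (f : A → B) (hf : ∀ a, f a = s a) (g : Matrix (Fin 7) (Fin 7) A)
    (h : Matrix (Fin 7) (Fin 7) B)
    (hg : ∀ i j, f (g i j) = h i j) (i j : Fin 7) : f (g⁻¹ i j) = h⁻¹ i j := by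
  have hm : g.map s = h := by
    ext i j
    rw [← hg, hf]
    rfl
  have e0 : (g⁻¹).map s = h⁻¹ := by
    by_cases h1 : IsUnit g.det
    · symm
      apply Matrix.inv_eq_left_inv
      rw [← hm, ← Matrix.map_mul, Matrix.nonsing_inv_mul _ h1,
        Matrix.map_one _ (map_zero s) (map_one s)]
    · have e1 : h.det = s g.det := by
        have := (RingHom.map_det (s : A →+* B) g).symm
        rw [← hm]
        exact this
      have h2 : ¬ IsUnit h.det := by
        rw [e1]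
        intro h3
        exact h1 ((MulEquiv.isUnit_map s).mp h3)
      rw [Matrix.nonsing_inv_apply_not_isUnit _ h1, Matrix.nonsing_inv_apply_not_isUnit _ h2]
      ext i j
      exact map_zero s
  rw [← e0, hf]
  rfl

theorem fmap_g {A B : Type*} [CommRing A] [Algebra ℂ A] [CommRing B] [Algebra ℂ B]
    (fr : Frame 7 A) (k : A →ₐ[ℂ] B) (i j : Fin 7) :
    (fr.map k.toRingHom).g i j = k (fr.g i j) := by
  simp only [Frame.g, Frame.map, Matrix.mul_apply, Matrix.transpose_apply, Matrix.map_apply,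
    map_sum, map_mul]
  rfl

theorem fmap_phc {A B : Type*} [CommRing A] [Algebra ℂ A] [CommRing B] [Algebra ℂ B]
    (fr : Frame 7 A) (k : A →ₐ[ℂ] B) (φ : Fin 7 → Fin 7 → Fin 7 → ℂ) (i j l : Fin 7) :
    CD.phc (fr.map k.toRingHom) φ i j l = k (CD.phc fr φ i j l) := by
  simp only [CD.phc, map_sum, map_smul, map_mul]
  rfl

/-- the second model for an open set -/
def dm (V : TopologicalSpace.Opens (Eu 7)) : Dom := ⟨V.1, V.2⟩
/-- the second model for an open set -/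
def smV (V : TopologicalSpace.Opens (Eu 7)) : smooth V ≃ₐ[ℂ] Sm (dm V) := sm (dm V)
theorem smV_fn (V : TopologicalSpace.Opens (Eu 7)) (f : smooth V) (z : (dm V).set) :
    (smV V f).fn z = f.1 z := sm_fn (dm V) f z

/-! ### generic comparison -/

section
variable {A B : Type} [CommRing A] [Algebra ℂ A] [CommRing B] [Algebra ℂ B] (DA : DS 7 A)
  (DB : DS 7 B) (t : A ≃ₐ[ℂ] B) (f : A → B) (hf : ∀ a, f a = t a)
  (td : ∀ i a, f (DA.d i a) = DB.d i (f a))
include hf td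

theorem gen_Γ (G Gi : Matrix (Fin 7) (Fin 7) A)
    (H : Matrix (Fin 7) (Fin 7) B) (h : ∀ i j, f (G i j) = H i j)
    (hi : ∀ i j, f (Gi i j) = H⁻¹ i j) (m l i : Fin 7) :
    f (AA3.christoffel DA G Gi m l i) = christoffel DB H H⁻¹ m l i := by
  simp only [hf] at td h hi ⊢
  rw [AA3.christoffel, christoffel, map_sum]
  refine Finset.sum_congr rfl fun r _ => ?_
  rw [map_mul, map_smul, map_sub, map_add, td, td, td, h, h, h, hi]

theorem gen_tf (Γ : Fin 7 → Fin 7 → Fin 7 → A) (Γ' : Fin 7 → Fin 7 → Fin 7 → B)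
    (hΓ : ∀ m l i, f (Γ m l i) = Γ' m l i)
    (p : Fin 7 → Fin 7 → Fin 7 → A) (q : Fin 7 → Fin 7 → Fin 7 → B)
    (hp : ∀ i j k, f (p i j k) = q i j k) (l i j k : Fin 7)
    (ht : DB.d l (q i j k) = ∑ m, (Γ' m l i * q m j k + Γ' m l j * q i m k
      + Γ' m l k * q i j m)) :
    DA.d l (p i j k) = ∑ m, (Γ m l i * p m j k + Γ m l j * p i m k + Γ m l k * p i j m) := by
  simp only [hf] at td hΓ hp
  apply t.injective
  rw [td, hp, ht, map_sum]
  refine Finset.sum_congr rfl fun m _ => ?_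
  rw [map_add, map_add, map_mul, map_mul, map_mul, hΓ, hΓ, hΓ, hp, hp, hp]

end

theorem old_Γ {M : Type} [TopologicalSpace M] [ChartedSpace (Eu 7) M]
    (S' : AA3.G2Structure M) (e : AA3.Ch M) (m l i : Fin 7) :
    S'.ΓR e m l i =
      AA3.christoffel (A := AA3.CR e) (DSmooth (tgt e.1)) (S'.gR e) (S'.gR e)⁻¹ m l i := rfl

section
attribute [local instance] csOld imOld

theorem oldS_g (S : G2Structure M) (e : Ch M) (i j : Fin 7) :
    sm e.dom ((oldS S).gR (oCh e) i j) = S.gR e i j :=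
  Sm.ext_fn fun y => (sm_fn e.dom _ y).trans rfl

theorem oldS_p (S : G2Structure M) (e : Ch M) (i j k : Fin 7) :
    sm e.dom ((oldS S).pR (oCh e) i j k) = S.pR e i j k :=
  Sm.ext_fn fun y => (sm_fn e.dom _ y).trans rfl

/-- the two models of the ring of a chart -/
def smC (e : @AA3.Ch M _ (csOld M)) : CR e ≃ₐ[ℂ] Sm (nCh e).dom := sm (nCh e).dom
/-- the two models of the ring of a chart -/
def smF (e : @AA3.Ch M _ (csOld M)) (f : CR e) : Sm (nCh e).dom := smC e f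
theorem smF_eq (e : @AA3.Ch M _ (csOld M)) (f : CR e) : smF e f = smC e f := rfl
theorem smF_d (e : @AA3.Ch M _ (csOld M)) (i : Fin 7) (f : CR e) :
    smF e ((DSmooth (tgt e.1)).d i f) = (DSm (nCh e).dom).d i (smF e f) :=
  sm_d (nCh e).dom i f
theorem smF_fn (e : @AA3.Ch M _ (csOld M)) (f : CR e) (y : (nCh e).dom.set) :
    (smF e f).fn y = f.1 y := sm_fn (nCh e).dom f y
theorem smF_g (S : G2Structure M) (e : @AA3.Ch M _ (csOld M)) (i j : Fin 7) :
    smF e ((oldS S).gR e i j) = S.gR (nCh e) i j :=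
  Sm.ext_fn fun y => (smF_fn e _ y).trans rfl
theorem smF_p (S : G2Structure M) (e : @AA3.Ch M _ (csOld M)) (i j k : Fin 7) :
    smF e ((oldS S).pR e i j k) = S.pR (nCh e) i j k :=
  Sm.ext_fn fun y => (smF_fn e _ y).trans rfl

theorem new_Γ (S : G2Structure M) (e : Ch M) (m l i : Fin 7) :
    S.ΓR e m l i = christoffel (DSm e.dom) (S.gR e) (S.gR e)⁻¹ m l i := rfl

theorem smF_gi (S : G2Structure M) (e : @AA3.Ch M _ (csOld M)) (i j : Fin 7) :
    smF e (((oldS S).gR e)⁻¹ i j) = (S.gR (nCh e))⁻¹ i j :=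
  map_inv (smC e) (smF e) (smF_eq e) ((oldS S).gR e) (S.gR (nCh e)) (smF_g S e) i j

theorem smF_Γ (S : G2Structure M) (e : @AA3.Ch M _ (csOld M)) (m l i : Fin 7) :
    smF e ((oldS S).ΓR e m l i) = S.ΓR (nCh e) m l i := by
  rw [old_Γ, new_Γ]
  exact gen_Γ (A := CR e) (DSmooth (tgt e.1)) (DSm (nCh e).dom) (smC e) (smF e) (smF_eq e)
    (smF_d e) _ _ (S.gR (nCh e)) (smF_g S e) (smF_gi S e) m l i

theorem oldS_tf (S : G2Structure M) (hS : S.TorsionFree) : (oldS S).TorsionFree := by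
  intro e l i j k
  exact gen_tf (DSmooth (tgt e.1)) (DSm (nCh e).dom) (smC e) (smF e) (smF_eq e) (smF_d e)
    ((oldS S).ΓR e) (S.ΓR (nCh e)) (smF_Γ S e) ((oldS S).pR e) (S.pR (nCh e)) (smF_p S e)
    l i j k (hS (nCh e) l i j k)

/-- the structure in the sense of `AA3` -/
theorem exists_oldS (S : G2Structure M) : ∃ S' : @AA3.G2Structure M _ (csOld M),
    (∀ (e : Ch M) i j, sm e.dom (@AA3.G2Structure.gR M _ (csOld M) S' (oCh e) i j) = S.gR e i j) ∧
    (∀ (e : Ch M) i j k,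
      sm e.dom (@AA3.G2Structure.pR M _ (csOld M) S' (oCh e) i j k) = S.pR e i j k) ∧
    (S.TorsionFree → @AA3.G2Structure.TorsionFree M _ (csOld M) S') :=
  ⟨oldS S, oldS_g S, oldS_p S, oldS_tf S⟩

/-- local frames -/
theorem local_frame [i2 : IsManifold 𝓘(ℝ, R7) ∞ M] (S : G2Structure M) (e : Ch M)
    (y : e.dom.set) :
    ∃ (V : Dom) (hV : V.set ⊆ e.dom.set) (fr : Frame 7 (Sm V)), y.1 ∈ V.set ∧
      (∀ i j (z : V.set), (fr.g i j).fn z = (S.gR e i j).fn ⟨z.1, hV z.2⟩) ∧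
      ∀ i j k (z : V.set), (CD.phc fr phiC i j k).fn z = (S.pR e i j k).fn ⟨z.1, hV z.2⟩ := by
  obtain ⟨V, hV, fr, h1, -, -, h4, h5⟩ := exists_local_frame (oldS S) (oCh e) y.1 y.2
  refine ⟨dm V, hV, fr.map (smV V : smooth V →ₐ[ℂ] Sm (dm V)).toRingHom, h1, fun i j z => ?_,
    fun i j l z => ?_⟩
  · rw [fmap_g]
    exact (smV_fn V _ z).trans (h4 i j z)
  · rw [fmap_phc]
    exact (smV_fn V _ z).trans (h5 i j l z)

end

end Pool.Agent.CDR
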