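import Pool.Agent.Lib.MP_aa3aaf_al_L.Global
import Pool.Agent.Lib.MP_aa3aaf_al.Bridge2
import Pool.Agent.Lib.MP_aa3aaf_al.Sheaf

/-!
Transfer between the fields given by plain functions and the fields given by endomorphisms.
-/

set_option autoImplicit false
open scoped BigOperators
noncomputable section
namespace Pool.Agent.CDR
open Pool.Agent.AA3

section LP
variable {n : ℕ} {A : Type*} [CommRing A] [Algebra ℂ A] (D : DS n A)

/-- the field of a state -/
def Yp (a : Fk n A) : Fd (Fk n A) := fun m v => (vsaE D).Y a m v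

namespace LP

/-- the plain field underlying a field -/
def co (a : Fld (EE n A)) : Fd (Fk n A) := fun m v => a.1 m v

theorem co_Yf (a : EE n A) : co ((vsaE D).Yf a) = Yp D a := rfl

theorem co_add (a b : Fld (EE n A)) : co (a + b) = co a + co b := rfl
theorem co_sub (a b : Fld (EE n A)) : co (a - b) = co a - co b := rfl
theorem co_smul (c : ℂ) (a : Fld (EE n A)) : co (c • a) = c • co a := rfl
theorem co_zero : co (0 : Fld (EE n A)) = 0 := rfl
theorem co_sum {ι : Type*} (s : Finset ι) (f : ι → Fld (EE n A)) :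
    co (∑ i ∈ s, f i) = ∑ i ∈ s, co (f i) := by
  classical
  induction s using Finset.induction_on with
  | empty => rw [Finset.sum_empty, Finset.sum_empty, co_zero]
  | insert i s hi ih => rw [Finset.sum_insert hi, Finset.sum_insert hi, co_add, ih]

theorem mprod_co (q : ℂ) (m : ℤ) (a b : Fld (EE n A)) :
    mprod q m (co a) (co b) = co (np q m a b) := rfl

theorem conj_co (a : Fld (EE n A)) : conj sg (co a) = co (cj (AA3.sgC n A) a) := rfl

theorem evn_co (a : Fld (EE n A)) : evn sg (co a) = co (evF (AA3.sgC n A) a) := by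
  rw [evn, evF, conj_co, co_smul, co_add]

theorem odd_co (a : Fld (EE n A)) : odd sg (co a) = co (odF (AA3.sgC n A) a) := by
  rw [odd, odF, conj_co, co_smul, co_sub]

theorem prodF_co (m : ℤ) (a b : Fld (EE n A)) :
    prodF sg m (co a) (co b) = co (nprod (AA3.sgC n A) m a b) := by
  rw [prodF, nprod, evn_co, odd_co, evn_co, odd_co, mprod_co, mprod_co, mprod_co, co_add, co_add]

theorem nop_co (a b : Fld (EE n A)) : nop (co a) (co b) = co (AA3.nop a b) := prodF_co _ a b

theorem fnF_co (f : A) : fnF D f = co (AA3.fnF D f) := rfl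
theorem xF_co (i : Fin n) : xF n A i = co (AA3.xF n A i) := rfl
theorem βF_co (i : Fin n) : βF D i = co (AA3.βF D i) := rfl
theorem cF_co (i : Fin n) : cF n A i = co (AA3.cF n A i) := rfl
theorem bF_co (i : Fin n) : bF n A i = co (AA3.bF n A i) := rfl

theorem susy_co (v : Fk n A) : susy D v = susyOp D v := by
  rw [susy, susyOp]
  erw [LinearMap.sum_apply]
  refine Finset.sum_congr rfl fun i _ => ?_
  rw [cF_co, βF_co, bF_co, xF_co, nop_co, nop_co]
  rfl

theorem formSection_co (gi : Matrix (Fin n) (Fin n) A) (Γ p : Fin n → Fin n → Fin n → A)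
    (e : Fin n → Fld (EE n A)) :
    formSection D gi Γ p (fun i => co (e i)) = co (AA3.formSection D gi Γ p e) := by
  rw [formSection, AA3.formSection]
  simp only [fnF_co, xF_co, nop_co, ← co_sum, ← co_smul, ← co_add]

theorem ePlus_co (gi : Matrix (Fin n) (Fin n) A) :
    ePlus D gi = fun i => co (AA3.ePlus D gi i) := by
  funext i
  rw [ePlus, AA3.ePlus]
  simp only [fnF_co, bF_co, cF_co, nop_co, ← co_sum, ← co_smul, ← co_add]

theorem eMinus_co (gi : Matrix (Fin n) (Fin n) A) :
    eMinus D gi = fun i => co (AA3.eMinus D gi i) := by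
  funext i
  rw [eMinus, AA3.eMinus]
  simp only [fnF_co, bF_co, cF_co, nop_co, ← co_sum, ← co_smul, ← co_sub]

theorem fsum_apply {ι : Type*} (s : Finset ι) (f : ι → Fld (EE n A)) (m : ℤ) (v : EE n A) :
    (∑ i ∈ s, f i).1 m v = ∑ i ∈ s, (f i).1 m v := by
  classical
  induction s using Finset.induction_on with
  | empty => rw [Finset.sum_empty, Finset.sum_empty]; rfl
  | insert i s hi ih => rw [Finset.sum_insert hi, Finset.sum_insert hi, ← ih]; rfl

end LP

open LP

theorem Yp_add (a b : Fk n A) : Yp D (a + b) = Yp D a + Yp D b := by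
  rw [← co_Yf, ← co_Yf, ← co_Yf, ← co_add]
  exact congrArg co (Yf_add D a b)

theorem Yp_smul (c : ℂ) (a : Fk n A) : Yp D (c • a) = c • Yp D a := by
  rw [← co_Yf, ← co_Yf, ← co_smul]
  exact congrArg co (Yf_smul D c a)

theorem Yp_zero : Yp D 0 = 0 := by
  have h := Yp_smul D 0 (0 : Fk n A)
  rw [zero_smul, zero_smul] at h
  exact h

theorem Yp_neg (a : Fk n A) : Yp D (-a) = (-1 : ℂ) • Yp D a := by
  rw [← Yp_smul, neg_smul, one_smul]

theorem Yp_create (a : Fk n A) : Yp D a (-1) (vacE n A) = a := by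
  have h := (vsaE D).create a
  rw [vsaE_vac] at h
  exact h

theorem Yp_inj : Function.Injective (Yp D) := by
  intro a b h
  rw [← Yp_create D a, ← Yp_create D b, h]

theorem prodF_Yp (m : ℤ) (a b : Fk n A) :
    prodF sg m (Yp D a) (Yp D b) = Yp D ((vsaE D).Y a m b) := by
  rw [← co_Yf, ← co_Yf, ← co_Yf, prodF_co]
  exact congrArg co (nprod_Yf D a b m)

theorem idF_Yp : idF (Fk n A) = Yp D (vacE n A) := by
  rw [← co_Yf, ← idFld_eq]
  funext m v
  change (if m = -1 then v else 0) = (if m = -1 then LinearMap.id else 0 : Module.End ℂ (EE n A)) v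
  split_ifs <;> rfl

theorem susy_eq (v : Fk n A) : susy D v = (cdE D).DD v := by
  rw [susy_co, susyOp_eq]

theorem scommF_Yp (a : Fk n A) : scommF sg (susy D) (Yp D a) = Yp D ((cdE D).DD a) := by
  rw [← co_Yf, ← co_Yf, ← scomm_Yf]
  funext m v
  change susy D _ - sg ((vsaE D).Y a m (sg (susy D v))) = _
  rw [susy_co, susy_co]
  rfl

theorem fnF_Yp (f : A) : fnF D f = Yp D ((cdE D).fn f) := by
  rw [fnF_co, B2.fnF_eq]; rfl
theorem xF_Yp (i : Fin n) : xF n A i = Yp D ((cdE D).x i) := by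
  rw [xF_co, B2.xF_eq D]; rfl
theorem βF_Yp (i : Fin n) : βF D i = Yp D ((cdE D).β i) := by
  rw [βF_co, B2.βF_eq]; rfl
theorem cF_Yp (i : Fin n) : cF n A i = Yp D ((cdE D).c i) := by
  rw [cF_co, B2.cF_eq D]; rfl
theorem bF_Yp (i : Fin n) : bF n A i = Yp D ((cdE D).b i) := by
  rw [bF_co, B2.bF_eq D]; rfl

theorem formSection_plus_Yp (gi : Matrix (Fin n) (Fin n) A) (Γ p : Fin n → Fin n → Fin n → A) :
    formSection D gi Γ p (ePlus D gi)
      = Yp D ((1 / (Real.sqrt 2 : ℂ)) ^ 3 • formSt D 1 6 gi Γ p) := by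
  rw [ePlus_co, formSection_co, formSection_plus, ← Yf_smul]
  rfl

theorem formSection_minus_Yp (gi : Matrix (Fin n) (Fin n) A)
    (Γ p : Fin n → Fin n → Fin n → A) :
    formSection D gi Γ p (eMinus D gi)
      = Yp D ((1 / ((Real.sqrt 2 : ℂ) * Complex.I)) ^ 3 • formSt D (-1) (-6) gi Γ p) := by
  rw [eMinus_co, formSection_co, formSection_minus, ← Yf_smul]
  rfl

theorem mem_omegaCh (a : Fk n A) : Yp D a ∈ omegaCh D := by
  rw [omegaCh, VAlg.genSet, Submodule.mem_sInf]
  rintro W ⟨h1, h2, h3⟩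
  let S : AddSubgroup (EE n A) :=
    { carrier := {v | Yp D v ∈ W}
      zero_mem' := Eq.mpr (congrArg (· ∈ W) (Yp_zero D)) W.zero_mem
      add_mem' := fun {u v} hu hv =>
        Eq.mpr (congrArg (· ∈ W) (Yp_add D u v)) (W.add_mem hu hv)
      neg_mem' := fun {u} hu =>
        Eq.mpr (congrArg (· ∈ W) (Yp_neg D u)) (W.smul_mem _ hu) }
  have hS : S = ⊤ := by
    refine genE_span D S ?_ ?_
    · change Yp D (vsaE D).vac ∈ W
      rw [vsaE_vac, ← idF_Yp]
      exact h1
    · intro g hg m v hv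
      have hg' : Yp D g ∈ W := by
        apply h2
        rcases hg with (((⟨i, rfl⟩ | ⟨i, rfl⟩) | ⟨i, rfl⟩) | ⟨i, rfl⟩) | ⟨f, rfl⟩
        · exact Or.inr ⟨i, Or.inl (xF_Yp D i).symm⟩
        · exact Or.inr ⟨i, Or.inr (Or.inl (βF_Yp D i).symm)⟩
        · exact Or.inr ⟨i, Or.inr (Or.inr (Or.inr (cF_Yp D i).symm))⟩
        · exact Or.inr ⟨i, Or.inr (Or.inr (Or.inl (bF_Yp D i).symm))⟩
        · exact Or.inl ⟨f, (fnF_Yp D f).symm⟩
      have h := h3 m _ _ hg' hv
      change prodF sg m (Yp D g) (Yp D v) ∈ W at h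
      rw [prodF_Yp] at h
      exact h
  have ha : a ∈ S := by rw [hS]; trivial
  exact ha

/-- a coordinate change in the sense of `AA3` is one in the sense of `CDR` -/
theorem isCoordChange_of {A' : Type*} [CommRing A'] [Algebra ℂ A'] (D' : DS n A') (h : A' → A)
    (X : Fin n → A) (τ : EE n A' →ₗ[ℂ] EE n A) (H : AA3.IsCoordChange D D' h X τ) :
    IsCoordChange D D' h X (τ : Fk n A' →ₗ[ℂ] Fk n A) where
  vac := H.vac
  fn f m v := H.fn f m v
  x j m v := by
    refine (H.x j m v).trans ?_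
    rw [fsum_apply]
    refine Finset.sum_congr rfl fun i _ => ?_
    rw [fnF_co, xF_co, nop_co]
    rfl
  c j m v := by
    refine (H.c j m v).trans ?_
    rw [fsum_apply]
    refine Finset.sum_congr rfl fun i _ => ?_
    rw [fnF_co, cF_co, nop_co]
    rfl
  b j m v := by
    refine (H.b j m v).trans ?_
    rw [fsum_apply]
    refine Finset.sum_congr rfl fun i _ => ?_
    rw [fnF_co, bF_co, nop_co]
    rfl
  susy v := by
    rw [susy_co, susy_co]
    exact H.susy v

end LP

end Pool.Agent.CDR
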