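import Pool.Agent.Lib.MP_aa3aaf_al.Smooth

/-!
Rings of smooth complex valued functions on open subsets of `ℝ⁷` and their partial derivatives.
-/

set_option autoImplicit false
open scoped BigOperators ContDiff
noncomputable section
namespace Pool.Agent.CDR
open Pool.Agent.AA3

/-- `ℝ⁷` -/
def R7 : Type := EuclideanSpace ℝ (Fin 7)
instance : NormedAddCommGroup R7 := (inferInstance : NormedAddCommGroup (EuclideanSpace ℝ (Fin 7)))
instance : NormedSpace ℝ R7 := (inferInstance : NormedSpace ℝ (EuclideanSpace ℝ (Fin 7)))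

/-- the `i`-th coordinate vector -/
def ei (i : Fin 7) : R7 := EuclideanSpace.single i (1 : ℝ)
/-- the `i`-th coordinate of a point -/
def coo (y : R7) (i : Fin 7) : ℝ := (show EuclideanSpace ℝ (Fin 7) from y) i

/-- open subsets of `ℝ⁷` -/
structure Dom where
  set : Set R7
  isOpen : IsOpen set

/-- functions on `U` -/
def Fun (U : Dom) : Type := U.set → ℂ
instance (U : Dom) : CommRing (Fun U) := (inferInstance : CommRing (U.set → ℂ))
instance (U : Dom) : Algebra ℂ (Fun U) := (inferInstance : Algebra ℂ (U.set → ℂ))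

/-- extension by zero of a function on `U` -/
def ext (U : Dom) (f : Fun U) : R7 → ℂ := fun y => by
  classical exact if h : y ∈ U.set then f ⟨y, h⟩ else 0

/-- smoothness -/
def IsSm (U : Dom) (f : Fun U) : Prop := ContDiffOn ℝ ∞ (ext U f) U.set

def Dom.op (U : Dom) : TopologicalSpace.Opens (Eu 7) := ⟨U.set, U.isOpen⟩

theorem isSm_iff (U : Dom) (f : Fun U) : IsSm U f ↔ f ∈ smooth U.op := Iff.rfl

theorem IsSm.mul {U : Dom} {f g : Fun U} (hf : IsSm U f) (hg : IsSm U g) : IsSm U (f * g) :=
  (smooth U.op).mul_mem' hf hg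
theorem IsSm.add {U : Dom} {f g : Fun U} (hf : IsSm U f) (hg : IsSm U g) : IsSm U (f + g) :=
  (smooth U.op).add_mem' hf hg
theorem IsSm.const {U : Dom} (c : ℂ) : IsSm U (algebraMap ℂ (Fun U) c) :=
  (smooth U.op).algebraMap_mem' c

/-- The algebra `C^∞(U)` of smooth complex valued functions on the open set `U`. -/
def smAlg (U : Dom) : Subalgebra ℂ (Fun U) where
  carrier := {f | IsSm U f}
  mul_mem' := IsSm.mul
  add_mem' := IsSm.add
  algebraMap_mem' := IsSm.const

/-- The ring `C^∞(U)`. -/
def Sm (U : Dom) : Type := smAlg U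
set_option warn.classDefReducibility false in
/-- the ring structure of `C^∞(U)` -/
def ringSm (U : Dom) : CommRing (Sm U) := (inferInstance : CommRing (smAlg U))
instance (U : Dom) : CommRing (Sm U) := ringSm U
set_option warn.classDefReducibility false in
/-- the algebra structure of `C^∞(U)` -/
def algSm (U : Dom) : Algebra ℂ (Sm U) := (inferInstance : Algebra ℂ (smAlg U))
instance (U : Dom) : Algebra ℂ (Sm U) := algSm U

/-- the smooth function `f` -/
def Sm.mk {U : Dom} (f : Fun U) (hf : IsSm U f) : Sm U := Subtype.mk f hf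
/-- the function `f` -/
def Sm.fn {U : Dom} (f : Sm U) : Fun U := Subtype.val f

/-- partial derivative -/
def pdF {U : Dom} (i : Fin 7) (f : Sm U) : Fun U := fun y => fderiv ℝ (ext U f.fn) y (ei i)

theorem pdF_mem {U : Dom} (i : Fin 7) (f : Sm U) : IsSm U (pdF i f) :=
  ((dSmooth U.op i) f).2

/-- partial derivative -/
def pd {U : Dom} (i : Fin 7) (f : Sm U) : Sm U := Sm.mk (pdF i f) (pdF_mem i f)

theorem pd_eq {U : Dom} (i : Fin 7) (f : Sm U) : pd i f = dSmooth U.op i f := rfl

theorem pd_add {U : Dom} (i : Fin 7) (f g : Sm U) : pd i (f + g) = pd i f + pd i g :=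
  map_add (dSmooth U.op i) f g
theorem pd_smul {U : Dom} (i : Fin 7) (c : ℂ) (f : Sm U) : pd i (c • f) = c • pd i f :=
  (dSmooth U.op i).map_smul c f
theorem pd_mul {U : Dom} (i : Fin 7) (f g : Sm U) : pd i (f * g) = f • pd i g + g • pd i f :=
  (dSmooth U.op i).leibniz f g
theorem pd_comm {U : Dom} (i j : Fin 7) (f : Sm U) : pd i (pd j f) = pd j (pd i f) :=
  (DSmooth U.op).comm i j f

/-- partial derivative as a linear map -/
def pdL {U : Dom} (i : Fin 7) : Sm U →ₗ[ℂ] Sm U where
  toFun := pd i
  map_add' := pd_add i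
  map_smul' := pd_smul i

/-- The differential ring `C^∞(U)` with its partial derivatives. -/
def DSm (U : Dom) : DS 7 (Sm U) where
  d i := Derivation.mk' (pdL i) (pd_mul i)
  comm := pd_comm

end Pool.Agent.CDR
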