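import Pool.Agent.Lib.MP_aa3aaf_al_L.Fields
import Pool.Agent.Lib.MP_aa3aaf_al_L.Space

/-!
The smooth chiral de Rham complex of a 7-manifold, torsion-free `G₂`-structures, the sections
`Φ₊`, `Φ₋` and the vertex algebras `V₊`, `V₋`.
-/

set_option autoImplicit false
open scoped BigOperators ContDiff Manifold
noncomputable section
namespace Pool.Agent.CDR
open Pool.Agent.AA3

/-- the sign of `(i,j,k)` as a permutation of `(a,b,c)`, zero if it is not one -/
def sgn3 (a b c i j k : Fin 7) : ℤ :=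
  if (i, j, k) = (a, b, c) ∨ (i, j, k) = (b, c, a) ∨ (i, j, k) = (c, a, b) then 1
  else if (i, j, k) = (b, a, c) ∨ (i, j, k) = (a, c, b) ∨ (i, j, k) = (c, b, a) then -1
  else 0

/-- Components of the standard `G₂`-form
`e¹²³ + e¹⁴⁵ + e¹⁶⁷ + e²⁴⁶ - e²⁵⁷ - e³⁴⁷ - e³⁵⁶` on `ℝ⁷` (indices start at `0` here). -/
def phi0 (i j k : Fin 7) : ℤ :=
  sgn3 0 1 2 i j k + sgn3 0 3 4 i j k + sgn3 0 5 6 i j k + sgn3 1 3 5 i j k
    - sgn3 1 4 6 i j k - sgn3 2 3 6 i j k - sgn3 2 4 5 i j k

section
variable {M : Type} [TopologicalSpace M] [ChartedSpace R7 M]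

/-- the tangent space at `x` -/
def TS (x : M) : Type := TangentSpace 𝓘(ℝ, R7) x
instance (x : M) : AddCommGroup (TS x) := (inferInstance : AddCommGroup (TangentSpace 𝓘(ℝ, R7) x))
instance (x : M) : Module ℝ (TS x) := (inferInstance : Module ℝ (TangentSpace 𝓘(ℝ, R7) x))

variable (M) in
/-- the charts of the atlas -/
def Ch : Type := {e : OpenPartialHomeomorph M R7 // e ∈ atlas R7 M}

/-- the chart `e` as a map -/
def Ch.map (e : Ch M) (x : M) : R7 := e.1 x
/-- the inverse of the chart `e` -/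
def Ch.inv (e : Ch M) (y : R7) : M := e.1.symm y
/-- the domain of the chart `e`, an open subset of `M` -/
def Ch.src (e : Ch M) : Set M := e.1.source
/-- the coordinate domain of the chart `e`, an open subset of `ℝ⁷` -/
def Ch.dom (e : Ch M) : Dom := ⟨e.1.target, e.1.open_target⟩

/-- the `i`-th coordinate vector field of the chart `e` at the point with coordinates `y` -/
def cvec (e : Ch M) (i : Fin 7) (y : R7) : TS (e.inv y) :=
  mfderiv 𝓘(ℝ, R7) 𝓘(ℝ, R7) e.inv y (ei i)

variable (M) in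
/-- A bilinear form on every tangent space and an alternating 3-form. -/
structure MetricForm where
  g : ∀ x : M, TS x →ₗ[ℝ] TS x →ₗ[ℝ] ℝ
  φ : ∀ x : M, (TS x) [⋀^Fin 3]→ₗ[ℝ] ℝ

/-- components `g_{ij}` in the chart `e` -/
def gco (S : MetricForm M) (e : Ch M) (i j : Fin 7) : Fun e.dom :=
  fun y => ((S.g (e.inv y) (cvec e i y) (cvec e j y) : ℝ) : ℂ)

/-- components `φ_{ijk}` in the chart `e` -/
def pco (S : MetricForm M) (e : Ch M) (i j k : Fin 7) : Fun e.dom :=
  fun y => ((S.φ (e.inv y) ![cvec e i y, cvec e j y, cvec e k y] : ℝ) : ℂ)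

variable (M) in
/-- A smooth `G₂`-structure: in a suitable basis of each tangent space the metric `g` is the
standard Euclidean metric and `φ` is the standard `G₂`-form; `g` and `φ` are smooth. -/
structure G2Structure extends MetricForm M where
  adapted : ∀ x : M, ∃ b : Module.Basis (Fin 7) ℝ (TS x),
    (∀ i j, g x (b i) (b j) = if i = j then 1 else 0) ∧
    ∀ i j k, φ x ![b i, b j, b k] = (phi0 i j k : ℝ)
  smooth_g : ∀ (e : Ch M) i j, IsSm e.dom (gco toMetricForm e i j)
  smooth_φ : ∀ (e : Ch M) i j k, IsSm e.dom (pco toMetricForm e i j k)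

namespace G2Structure
variable (S : G2Structure M)

/-- the metric in the chart `e`, a matrix of smooth functions -/
def gR (e : Ch M) : Matrix (Fin 7) (Fin 7) (Sm e.dom) :=
  fun i j => Sm.mk (gco S.toMetricForm e i j) (S.smooth_g e i j)

/-- the 3-form in the chart `e` -/
def pR (e : Ch M) (i j k : Fin 7) : Sm e.dom :=
  Sm.mk (pco S.toMetricForm e i j k) (S.smooth_φ e i j k)

/-- Christoffel symbols `Γ^m_{li}` in the chart `e` -/
def ΓR (e : Ch M) (m l i : Fin 7) : Sm e.dom :=
  christoffel (DSm e.dom) (S.gR e) (S.gR e)⁻¹ m l i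

/-- The `G₂`-structure is torsion-free: the 3-form `φ` is parallel for the Levi-Civita connection,
`∂_l φ_{ijk} = Γ^m_{li} φ_{mjk} + Γ^m_{lj} φ_{imk} + Γ^m_{lk} φ_{ijm}` in all charts. -/
def TorsionFree : Prop :=
  ∀ (e : Ch M) (l i j k : Fin 7), pd l (S.pR e i j k) =
    ∑ m, (S.ΓR e m l i * S.pR e m j k + S.ΓR e m l j * S.pR e i m k
      + S.ΓR e m l k * S.pR e i j m)

/-- The local expression of `Φ₊` in the chart `e`. -/
def PhiPlus (e : Ch M) : Fd (Fk 7 (Sm e.dom)) :=
  formSection (DSm e.dom) (S.gR e)⁻¹ (S.ΓR e) (S.pR e) (ePlus (DSm e.dom) (S.gR e)⁻¹)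

/-- The local expression of `Φ₋` in the chart `e`. -/
def PhiMinus (e : Ch M) : Fd (Fk 7 (Sm e.dom)) :=
  formSection (DSm e.dom) (S.gR e)⁻¹ (S.ΓR e) (S.pR e) (eMinus (DSm e.dom) (S.gR e)⁻¹)

end G2Structure

variable (M) in
/-- Families of fields, one over each chart of the atlas. -/
def Fam : Type := ∀ e : Ch M, Fd (Fk 7 (Sm e.dom))
instance : AddCommGroup (Fam M) := (inferInstance : AddCommGroup (∀ e : Ch M, Fd (Fk 7 (Sm e.dom))))
instance : Module ℂ (Fam M) := (inferInstance : Module ℂ (∀ e : Ch M, Fd (Fk 7 (Sm e.dom))))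

variable (M) in
/-- Families of fields with the chartwise products and supersymmetry. -/
def famAlg : VAlg (Fam M) where
  prod m a b := fun e => (fieldAlg (DSm e.dom)).prod m (a e) (b e)
  one := fun e => (fieldAlg (DSm e.dom)).one
  S a := fun e => (fieldAlg (DSm e.dom)).S (a e)

/-- `V₊`: the supersymmetric vertex algebra generated by `Φ₊`. -/
def VPlus (S : G2Structure M) : Submodule ℂ (Fam M) := (famAlg M).gen S.PhiPlus

/-- `V₋`: the supersymmetric vertex algebra generated by `Φ₋`. -/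
def VMinus (S : G2Structure M) : Submodule ℂ (Fam M) := (famAlg M).gen S.PhiMinus

end

end Pool.Agent.CDR
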