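import Pool.Agent.Lib.MP_aa3aaf_al_L.Prod
import Pool.Agent.Lib.MP_aa3aaf_al_L.Iso
import Pool.Agent.Lib.MP_aa3aaf_al.Final

/-!
Simplicity on the light statement layer.
-/

set_option autoImplicit false
set_option linter.unusedSectionVars false
open scoped BigOperators ContDiff Manifold
set_option maxHeartbeats 400000
set_option synthInstance.maxHeartbeats 100000
noncomputable section
namespace Pool.Agent.CDR
open Pool.Agent.AA3

attribute [local instance] csOld imOld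

section
variable {M : Type} [TopologicalSpace M] [i1 : ChartedSpace R7 M]

/-- evaluation at the chart `e` -/
def ev (e : Ch M) : Z.R1 M →ₐ[ℂ] Sm e.dom := (sm e.dom).toAlgHom.comp (Z.evC (oCh e))

theorem ev_apply (e : Ch M) (f : Z.R1 M) : ev e f = sm e.dom (f (oCh e)) := rfl

theorem ev_d (e : Ch M) (i : Fin 7) (f : Z.R1 M) :
    ev e ((Z.D1 M).d i f) = (DSm e.dom).d i (ev e f) := by
  exact (congrArg (sm e.dom) (piDS_apply _ i f (oCh e))).trans (sm_d e.dom i _)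

/-- states in the chart `e` -/
def evS (e : Ch M) (a : EE 7 (Z.R1 M)) : Fk 7 (Sm e.dom) := tw (ev e).toRingHom 1 1 a

theorem evS_add (e : Ch M) (a b : EE 7 (Z.R1 M)) : evS e (a + b) = evS e a + evS e b :=
  map_add (tw (ev e).toRingHom 1 1) a b
theorem evS_smul (e : Ch M) (c : ℂ) (a : EE 7 (Z.R1 M)) : evS e (c • a) = c • evS e a :=
  Z.tw_smul' _ _ _ (fun z => (ev e).commutes z) c a
theorem evS_vac (e : Ch M) : evS e (vacE 7 (Z.R1 M)) = vacE 7 (Sm e.dom) :=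
  (tw_gens (Z.D1 M) (DSm e.dom) (ev e).toRingHom 1 1).2.2.2.2.2
theorem evS_Y (e : Ch M) (a : EE 7 (Z.R1 M)) (m : ℤ) (b : EE 7 (Z.R1 M)) :
    evS e ((vsaE (Z.D1 M)).Y a m b) = (vsaE (DSm e.dom)).Y (evS e a) m (evS e b) := by
  refine tw_Y (Z.D1 M) (DSm e.dom) (ev e).toRingHom 1 1 ?_ a m b
  intro i f
  rw [Units.val_one, one_smul]
  exact ev_d e i f
theorem evS_DD (e : Ch M) (a : EE 7 (Z.R1 M)) :
    evS e ((cdE (Z.D1 M)).DD a) = (cdE (DSm e.dom)).DD (evS e a) :=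
  Z.tw_DD (Z.D1 M) (DSm e.dom) (ev e).toRingHom (fun i f => ev_d e i f) a
theorem evS_apply (e : Ch M) (a : EE 7 (Z.R1 M)) (w : Mon 7) :
    (Finsupp.toFun (evS e a) w : Sm e.dom) = ev e (a w) :=
  Z.tw_one_apply (ev e).toRingHom a w

variable (M) in
/-- states to families of fields -/
def FF : EE 7 (Z.R1 M) →ₗ[ℂ] Fam M where
  toFun a := fun e => Yp (DSm e.dom) (evS e a)
  map_add' a b := by
    funext e
    exact (congrArg (Yp (DSm e.dom)) (evS_add e a b)).trans (Yp_add _ _ _)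
  map_smul' c a := by
    funext e
    exact (congrArg (Yp (DSm e.dom)) (evS_smul e c a)).trans (Yp_smul _ _ _)

theorem FF_apply (a : EE 7 (Z.R1 M)) (e : Ch M) :
    FF M a e = Yp (DSm e.dom) (evS e a) := rfl

theorem evS_inj (a : EE 7 (Z.R1 M)) (ha : ∀ e : Ch M, evS e a = 0) : a = 0 := by
  ext1 w
  funext e
  have h3 := evS_apply (nCh e) a w
  rw [ha] at h3
  have h4 : sm (nCh e).dom (a w (oCh (nCh e))) = 0 := h3.symm
  exact (sm (nCh e).dom).injective (h4.trans (map_zero (sm (nCh e).dom)).symm)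

theorem FF_inj : Function.Injective (FF M) := by
  rw [injective_iff_map_eq_zero]
  intro a ha
  refine evS_inj a fun e => Yp_inj (DSm e.dom) ?_
  rw [Yp_zero]
  exact congrFun ha e

theorem FF_vac : FF M (vsaE (Z.D1 M)).vac = (famAlg M).one := by
  rw [vsaE_vac]
  funext e
  rw [FF_apply, evS_vac]
  exact (idF_Yp (DSm e.dom)).symm

theorem FF_prod (m : ℤ) (a b : EE 7 (Z.R1 M)) :
    (famAlg M).prod m (FF M a) (FF M b) = FF M ((vsaE (Z.D1 M)).Y a m b) := by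
  funext e
  exact (prodF_Yp (DSm e.dom) m (evS e a) (evS e b)).trans
    (congrArg (Yp (DSm e.dom)) (evS_Y e a m b).symm)

theorem FF_S (a : EE 7 (Z.R1 M)) :
    (famAlg M).S (FF M a) = FF M ((cdE (Z.D1 M)).DD a) := by
  funext e
  exact (scommF_Yp (DSm e.dom) (evS e a)).trans (congrArg (Yp (DSm e.dom)) (evS_DD e a).symm)

variable (M) in
/-- the algebra of families in the sense of `AA3` -/
def oAlg : AA3.VAlg (Fam M) := ⟨(famAlg M).prod, (famAlg M).one, (famAlg M).S⟩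

theorem simple_old (P : Fam M) (h : (oAlg M).IsSimple ((oAlg M).gen P)) :
    (famAlg M).IsSimple ((famAlg M).gen P) := h

variable [i2 : IsManifold 𝓘(ℝ, R7) ∞ M] (S : G2Structure M)

/-- the structure in the sense of `AA3` -/
def oS : AA3.G2Structure M := (exists_oldS S).choose
theorem oS_g (e : Ch M) (i j : Fin 7) : sm e.dom ((oS S).gR (oCh e) i j) = S.gR e i j :=
  (exists_oldS S).choose_spec.1 e i j
theorem oS_p (e : Ch M) (i j k : Fin 7) : sm e.dom ((oS S).pR (oCh e) i j k) = S.pR e i j k :=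
  (exists_oldS S).choose_spec.2.1 e i j k
theorem oS_tf (h : S.TorsionFree) : (oS S).TorsionFree := (exists_oldS S).choose_spec.2.2 h

theorem ev_g1 (e : Ch M) (i j : Fin 7) : ev e (Z.g1 (oS S) i j) = S.gR e i j := oS_g S e i j
theorem ev_p1 (e : Ch M) (i j k : Fin 7) : ev e (Z.p1 (oS S) i j k) = S.pR e i j k :=
  oS_p S e i j k

theorem gi1_left (e : Ch M) : (Z.gi1 (oS S)).map (ev e) * S.gR e = 1 := by
  have h1 : (Z.g1 (oS S)).map (ev e) = S.gR e := Matrix.ext fun i j => ev_g1 S e i j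
  have h2 : ((Z.gi1 (oS S)) * (Z.g1 (oS S))).map (ev e)
      = (Z.gi1 (oS S)).map (ev e) * (Z.g1 (oS S)).map (ev e) := Matrix.map_mul
  rw [← h1, ← h2, Z.gi1_g1, Matrix.map_one _ (map_zero (ev e)) (map_one (ev e))]

theorem ev_gi1 (e : Ch M) : (Z.gi1 (oS S)).map (ev e) = (S.gR e)⁻¹ :=
  (Matrix.inv_eq_left_inv (gi1_left S e)).symm

theorem ev_gi1_apply (e : Ch M) (i j : Fin 7) : ev e (Z.gi1 (oS S) i j) = (S.gR e)⁻¹ i j := by
  rw [← ev_gi1]
  rfl

theorem ΓR_eq (e : Ch M) (m l i : Fin 7) : S.ΓR e m l i = ∑ r, (S.gR e)⁻¹ m r *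
    ((1 / 2 : ℂ) • ((DSm e.dom).d l (S.gR e r i) + (DSm e.dom).d i (S.gR e r l)
      - (DSm e.dom).d r (S.gR e l i))) := rfl

theorem ev_Γ1 (e : Ch M) (m l i : Fin 7) : ev e (Z.Γ1 (oS S) m l i) = S.ΓR e m l i := by
  rw [Z.Γ1_eq, ΓR_eq, map_sum]
  refine Finset.sum_congr rfl fun r _ => ?_
  rw [map_mul, map_smul, map_sub, map_add, ev_d, ev_d, ev_d, ev_g1, ev_g1, ev_g1, ev_gi1_apply]

theorem evS_form (s q : ℂ) (e : Ch M) :
    evS e (formSt (Z.D1 M) s q (Z.gi1 (oS S)) (Z.Γ1 (oS S)) (Z.p1 (oS S))) =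
      formSt (DSm e.dom) s q (S.gR e)⁻¹ (S.ΓR e) (S.pR e) := by
  have h := tw_formSt (Z.D1 M) (DSm e.dom) (ev e) (ev_d e) s q (Z.gi1 (oS S)) (Z.Γ1 (oS S))
    (Z.p1 (oS S))
  rw [ev_gi1] at h
  have h2 : (fun a b c => ev e (Z.Γ1 (oS S) a b c)) = S.ΓR e := by
    funext a b c; exact ev_Γ1 S e a b c
  have h3 : (fun a b c => ev e (Z.p1 (oS S) a b c)) = S.pR e := by
    funext a b c; exact ev_p1 S e a b c
  rw [h2, h3] at h
  exact h

theorem FF_plus : FF M ((1 / (Real.sqrt 2 : ℂ)) ^ 3 • Z.stP (oS S)) = S.PhiPlus := by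
  funext e
  have h1 : evS e ((1 / (Real.sqrt 2 : ℂ)) ^ 3 • Z.stP (oS S)) = (1 / (Real.sqrt 2 : ℂ)) ^ 3 •
      formSt (DSm e.dom) 1 6 (S.gR e)⁻¹ (S.ΓR e) (S.pR e) :=
    (evS_smul e _ _).trans (congrArg _ (evS_form S 1 6 e))
  exact (congrArg (Yp (DSm e.dom)) h1).trans (formSection_plus_Yp _ _ _ _).symm

theorem FF_minus :
    FF M ((1 / ((Real.sqrt 2 : ℂ) * Complex.I)) ^ 3 • Z.stM (oS S)) = S.PhiMinus := by
  funext e
  have h1 : evS e ((1 / ((Real.sqrt 2 : ℂ) * Complex.I)) ^ 3 • Z.stM (oS S)) =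
      (1 / ((Real.sqrt 2 : ℂ) * Complex.I)) ^ 3 •
      formSt (DSm e.dom) (-1) (-6) (S.gR e)⁻¹ (S.ΓR e) (S.pR e) :=
    (evS_smul e _ _).trans (congrArg _ (evS_form S (-1) (-6) e))
  exact (congrArg (Yp (DSm e.dom)) h1).trans (formSection_minus_Yp _ _ _ _).symm

theorem final_aux [Nonempty M] (st : EE 7 (Z.R1 M)) (hst : (vsaE (Z.D1 M)).Par 1 st) (c : ℂ)
    (hc : c ≠ 0) (P : Fam M) (hP : FF M (c • st) = P)
    (hw : ∀ u : WA, rho (vsaE (Z.D1 M)) st ((cdE (Z.D1 M)).DD st) u (vsaE (Z.D1 M)).vac ≠ 0 →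
      ∃ u' : WA, rho (vsaE (Z.D1 M)) st ((cdE (Z.D1 M)).DD st) (u' * u) (vsaE (Z.D1 M)).vac
        = (vsaE (Z.D1 M)).vac) :
    (famAlg M).IsSimple ((famAlg M).gen P) := by
  apply simple_old
  rw [← hP, map_smul, Z.gen_smul _ _ _ hc]
  exact simple_of_words (vsaE (Z.D1 M)) (cdE (Z.D1 M)).DD (DD_ODer _) (DD_sq _) st hst
    (oAlg M) (FF M) FF_inj FF_vac FF_prod FF_S Z.vac_ne hw

theorem simple_plus [Nonempty M] (hS : S.TorsionFree) : (famAlg M).IsSimple (VPlus S) := by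
  have h2 : (Real.sqrt 2 : ℂ) ≠ 0 := by
    rw [Ne, Complex.ofReal_eq_zero]
    positivity
  exact final_aux (Z.stP (oS S)) (Z.par_st (oS S) 1 6) _ (pow_ne_zero _ (one_div_ne_zero h2)) _
    (FF_plus S) (Z.words_plus (oS S) (oS_tf S hS))

theorem simple_minus [Nonempty M] (hS : S.TorsionFree) : (famAlg M).IsSimple (VMinus S) := by
  have h2 : (Real.sqrt 2 : ℂ) ≠ 0 := by
    rw [Ne, Complex.ofReal_eq_zero]
    positivity
  refine final_aux (Complex.I • Z.stM (oS S)) ((Z.par_st (oS S) (-1) (-6)).smul _)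
      ((1 / ((Real.sqrt 2 : ℂ) * Complex.I)) ^ 3 * Complex.I⁻¹) ?_ _ ?_
      (Z.words_minus (oS S) (oS_tf S hS))
  · exact mul_ne_zero (pow_ne_zero _ (one_div_ne_zero (mul_ne_zero h2 Complex.I_ne_zero)))
      (inv_ne_zero Complex.I_ne_zero)
  · rw [smul_smul, mul_assoc, inv_mul_cancel₀ Complex.I_ne_zero, mul_one]
    exact FF_minus S

end
end Pool.Agent.CDR
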